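import Pool.Agent.H54.RK.Spec

/-!
# Project RK (MP_35eb49): classification of rank two and three
-/

set_option autoImplicit false

namespace Pool.Agent.H54.RK

open Pool.Agent.H54.RF

private theorem c3_sum {n m : ℕ} (f : Fin m → Fin n) (c : Fin m → ℝ) (h : Fin n → ℝ) :
    ∑ j, (∑ t, if f t = j then c t else 0) * h j = ∑ t, c t * h (f t) := by
  simp_rw [Finset.sum_mul]
  rw [Finset.sum_comm]
  refine Finset.sum_congr rfl fun t _ => ?_
  rw [Finset.sum_eq_single (f t)]
  · rw [if_pos rfl]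
  · intro j _ hj
    rw [if_neg fun h => hj h.symm, zero_mul]
  · intro h
    exact absurd (Finset.mem_univ _) h

private theorem c3_form {n m : ℕ} (b : Fin n → Fin n → ℝ) (f : Fin m → Fin n) (c : Fin m → ℝ) :
    ∑ i, ∑ j, (∑ s, if f s = i then c s else 0) * (∑ t, if f t = j then c t else 0) * b i j =
      ∑ s, ∑ t, c s * c t * b (f s) (f t) := by
  have h1 : ∀ i, ∑ j, (∑ s, if f s = i then c s else 0) * (∑ t, if f t = j then c t else 0) *
      b i j = (∑ s, if f s = i then c s else 0) * ∑ t, c t * b i (f t) := by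
    intro i
    rw [← c3_sum f c (fun j => b i j), Finset.mul_sum]
    exact Finset.sum_congr rfl fun j _ => mul_assoc _ _ _
  simp_rw [h1]
  rw [c3_sum f c (fun i => ∑ t, c t * b i (f t))]
  refine Finset.sum_congr rfl fun s _ => ?_
  rw [Finset.mul_sum]
  exact Finset.sum_congr rfl fun t _ => (mul_assoc _ _ _).symm

private theorem c3_bl_self {n : ℕ} (M : CoxeterMatrix (Fin n)) (i : Fin n) : bl M i i = 1 := by
  unfold bl
  rw [M.diagonal, Nat.cast_one, div_one, Real.cos_pi, neg_neg]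

private theorem c3_bl_comm {n : ℕ} (M : CoxeterMatrix (Fin n)) (i j : Fin n) :
    bl M i j = bl M j i := by
  unfold bl
  rw [M.symmetric]

theorem c3_pos3 {n : ℕ} {M : CoxeterMatrix (Fin n)} (hP : PD M) {i j k : Fin n} (hij : i ≠ j)
    (hik : i ≠ k) (_ : j ≠ k) (a b c : ℝ) (ha : a ≠ 0) :
    0 < a ^ 2 + b ^ 2 + c ^ 2 - 2 * a * b * Real.cos (Real.pi / (M i j : ℝ)) -
      2 * b * c * Real.cos (Real.pi / (M j k : ℝ)) -
      2 * a * c * Real.cos (Real.pi / (M i k : ℝ)) := by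
  have h := hP (fun t => ∑ s : Fin 3, if (![i, j, k] : Fin 3 → Fin n) s = t then
    (![a, b, c] : Fin 3 → ℝ) s else 0) ?_
  · rw [c3_form (bl M) ![i, j, k] ![a, b, c]] at h
    simp only [Fin.sum_univ_three, Matrix.cons_val_zero, Matrix.cons_val_one,
      Matrix.cons_val] at h
    rw [c3_bl_self, c3_bl_self, c3_bl_self, c3_bl_comm M j i, c3_bl_comm M k i,
      c3_bl_comm M k j] at h
    have e1 : bl M i j = -Real.cos (Real.pi / (M i j : ℝ)) := rfl
    have e2 : bl M j k = -Real.cos (Real.pi / (M j k : ℝ)) := rfl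
    have e3 : bl M i k = -Real.cos (Real.pi / (M i k : ℝ)) := rfl
    rw [e1, e2, e3] at h
    nlinarith [h]
  · intro h0
    have h1 := congrFun h0 i
    simp only [Fin.sum_univ_three, Matrix.cons_val_zero, Matrix.cons_val_one,
      Matrix.cons_val] at h1
    rw [if_pos trivial, if_neg (fun h => hij h.symm), if_neg (fun h => hik h.symm), add_zero,
      add_zero] at h1
    exact ha h1

theorem c3_pos2 {n : ℕ} {M : CoxeterMatrix (Fin n)} (hP : PD M) {i j : Fin n} (hij : i ≠ j)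
    (a b : ℝ) (ha : a ≠ 0) :
    0 < a ^ 2 + b ^ 2 - 2 * a * b * Real.cos (Real.pi / (M i j : ℝ)) := by
  have h := hP (fun t => ∑ s : Fin 2, if (![i, j] : Fin 2 → Fin n) s = t then
    (![a, b] : Fin 2 → ℝ) s else 0) ?_
  · rw [c3_form (bl M) ![i, j] ![a, b]] at h
    simp only [Fin.sum_univ_two, Matrix.cons_val_zero, Matrix.cons_val_one] at h
    rw [c3_bl_self, c3_bl_self, c3_bl_comm M j i] at h
    have e1 : bl M i j = -Real.cos (Real.pi / (M i j : ℝ)) := rfl
    rw [e1] at h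
    nlinarith [h]
  · intro h0
    have h1 := congrFun h0 i
    simp only [Fin.sum_univ_two, Matrix.cons_val_zero, Matrix.cons_val_one] at h1
    rw [if_pos trivial, if_neg (fun h => hij h.symm), add_zero] at h1
    exact ha h1

/-- There are no zero entries. -/
theorem c3_ne_zero {n : ℕ} {M : CoxeterMatrix (Fin n)} (hP : PD M) {i j : Fin n} (hij : i ≠ j) :
    M i j ≠ 0 := by
  intro h0
  have h := c3_pos2 hP hij 1 1 one_ne_zero
  rw [h0, Nat.cast_zero, div_zero, Real.cos_zero] at h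
  norm_num at h

/-- Entries off the diagonal are at least two. -/
theorem c3_two_le {n : ℕ} {M : CoxeterMatrix (Fin n)} (hP : PD M) {i j : Fin n} (hij : i ≠ j) :
    2 ≤ M i j := by
  have h0 := c3_ne_zero hP hij
  have h1 := M.off_diagonal i j hij
  omega

/-- The cosine is monotone in the entry. -/
theorem c3_cos {m m' : ℕ} (h1 : 1 ≤ m) (h : m ≤ m') :
    Real.cos (Real.pi / (m : ℝ)) ≤ Real.cos (Real.pi / (m' : ℝ)) := by
  have hm : (1 : ℝ) ≤ (m : ℝ) := by exact_mod_cast h1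
  have hm' : (m : ℝ) ≤ (m' : ℝ) := by exact_mod_cast h
  have hp := Real.pi_pos
  refine Real.cos_le_cos_of_nonneg_of_le_pi (by positivity) ?_ ?_
  · exact div_le_self hp.le hm
  · exact div_le_div_of_nonneg_left hp.le (by linarith) hm'

theorem c3_cos_nonneg {m : ℕ} (h : 2 ≤ m) : 0 ≤ Real.cos (Real.pi / (m : ℝ)) := by
  have h1 := c3_cos (by norm_num : 1 ≤ 2) h
  rw [Nat.cast_ofNat, Real.cos_pi_div_two] at h1
  exact h1

theorem c3_cos3 {m : ℕ} (h : 3 ≤ m) : 1 / 2 ≤ Real.cos (Real.pi / (m : ℝ)) := by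
  have h1 := c3_cos (by norm_num : 1 ≤ 3) h
  rw [Nat.cast_ofNat, Real.cos_pi_div_three] at h1
  exact h1

theorem c3_cos4 {m : ℕ} (h : 4 ≤ m) : √2 / 2 ≤ Real.cos (Real.pi / (m : ℝ)) := by
  have h1 := c3_cos (by norm_num : 1 ≤ 4) h
  rw [Nat.cast_ofNat, Real.cos_pi_div_four] at h1
  exact h1

theorem c3_cos6 {m : ℕ} (h : 6 ≤ m) : √3 / 2 ≤ Real.cos (Real.pi / (m : ℝ)) := by
  have h1 := c3_cos (by norm_num : 1 ≤ 6) h
  rw [Nat.cast_ofNat, Real.cos_pi_div_six] at h1
  exact h1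

/-- There is no triangle. -/
theorem c3_triangle {n : ℕ} {M : CoxeterMatrix (Fin n)} (hP : PD M) {i j k : Fin n}
    (hij : i ≠ j) (hik : i ≠ k) (hjk : j ≠ k) (h1 : 3 ≤ M i j) (h2 : 3 ≤ M j k)
    (h3 : 3 ≤ M i k) : False := by
  have h := c3_pos3 hP hij hik hjk 1 1 1 one_ne_zero
  have e1 := c3_cos3 h1
  have e2 := c3_cos3 h2
  have e3 := c3_cos3 h3
  nlinarith

/-- Adjacent edges are not both marked by numbers greater than three. -/
theorem c3_adj {n : ℕ} {M : CoxeterMatrix (Fin n)} (hP : PD M) {i j k : Fin n}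
    (hij : i ≠ j) (hik : i ≠ k) (hjk : j ≠ k) (h1 : 4 ≤ M i j) (h2 : 4 ≤ M j k) : False := by
  have h := c3_pos3 hP hij hik hjk 1 (√2) 1 one_ne_zero
  have e1 := c3_cos4 h1
  have e2 := c3_cos4 h2
  have e3 := c3_cos_nonneg (c3_two_le hP hik)
  have hs : √2 * √2 = 2 := Real.mul_self_sqrt (by norm_num)
  have hs0 : 0 ≤ √2 := Real.sqrt_nonneg _
  have f1 := mul_le_mul_of_nonneg_left e1 hs0
  have f2 := mul_le_mul_of_nonneg_left e2 hs0
  nlinarith

/-- On a path the entries are less than six. -/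
theorem c3_six {n : ℕ} {M : CoxeterMatrix (Fin n)} (hP : PD M) {i j k : Fin n}
    (hij : i ≠ j) (hik : i ≠ k) (hjk : j ≠ k) (h1 : 3 ≤ M i j) (h2 : 6 ≤ M j k) : False := by
  have h := c3_pos3 hP hij hik hjk 1 2 (√3) one_ne_zero
  have e1 := c3_cos3 h1
  have e2 := c3_cos6 h2
  have e3 := c3_cos_nonneg (c3_two_le hP hik)
  have hs : √3 * √3 = 3 := Real.mul_self_sqrt (by norm_num)
  have hs0 : 0 ≤ √3 := Real.sqrt_nonneg _
  have f2 := mul_le_mul_of_nonneg_left e2 hs0
  have f3 := mul_nonneg hs0 e3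
  nlinarith

/-- Row K6. -/
theorem sp_c2 : SpC2 := by
  intro M hI hP
  obtain ⟨i, hi, j, hj, h⟩ := hI {0} ⟨0, rfl⟩ ⟨1, by decide⟩
  have hi0 : i = 0 := hi
  have hj1 : j = 1 := by
    have h1 : ¬ j = 0 := hj
    omega
  rw [hi0, hj1] at h
  have h2 := c3_two_le hP (by decide : (0 : Fin 2) ≠ 1)
  omega

private theorem c3_iso {M M' : CoxeterMatrix (Fin 3)} {i j k : Fin 3} (hij : i ≠ j)
    (hik : i ≠ k) (hjk : j ≠ k) (h1 : M i j = M' 0 1) (h2 : M j k = M' 1 2)
    (h3 : M i k = M' 0 2) : Iso M M' := by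
  have hinj : Function.Injective (![i, j, k] : Fin 3 → Fin 3) := by
    intro a b hab
    fin_cases a <;> fin_cases b <;> simp_all
  have hbij : Function.Bijective (![i, j, k] : Fin 3 → Fin 3) :=
    Finite.injective_iff_bijective.1 hinj
  have key : ∀ a b : Fin 3, M' a b = M ((![i, j, k] : Fin 3 → Fin 3) a)
      ((![i, j, k] : Fin 3 → Fin 3) b) := by
    intro a b
    fin_cases a <;> fin_cases b
    · exact (M'.diagonal 0).trans (M.diagonal i).symm
    · exact h1.symm
    · exact h3.symm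
    · exact (M'.symmetric 1 0).trans (h1.symm.trans (M.symmetric i j))
    · exact (M'.diagonal 1).trans (M.diagonal j).symm
    · exact h2.symm
    · exact (M'.symmetric 2 0).trans (h3.symm.trans (M.symmetric i k))
    · exact (M'.symmetric 2 1).trans (h2.symm.trans (M.symmetric j k))
    · exact (M'.diagonal 2).trans (M.diagonal k).symm
  refine ⟨(Equiv.ofBijective _ hbij).symm, fun a b => ?_⟩
  rw [key]
  have e : ∀ c, (![i, j, k] : Fin 3 → Fin 3) ((Equiv.ofBijective _ hbij).symm c) = c :=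
    fun c => (Equiv.ofBijective _ hbij).apply_symm_apply c
  rw [e, e]

private theorem c3_path3 {M : CoxeterMatrix (Fin 3)} (hP : PD M) {i j k : Fin 3} (hij : i ≠ j)
    (hik : i ≠ k) (hjk : j ≠ k) (h1 : M i j = 3) (h2 : 3 ≤ M j k) (h3 : M i k = 2) :
    Iso M MA3 ∨ Iso M MB3 ∨ Iso M CoxeterMatrix.H₃ := by
  have h4 : M j k < 6 := by
    by_contra h
    exact c3_six hP hij hik hjk (le_of_eq h1.symm) (not_lt.1 h)
  have h5 : M j k = 3 ∨ M j k = 4 ∨ M j k = 5 := by omega
  rcases h5 with h5 | h5 | h5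
  · exact Or.inl (c3_iso hij hik hjk h1 h5 h3)
  · exact Or.inr (Or.inl (c3_iso hij hik hjk h1 h5 h3))
  · exact Or.inr (Or.inr (c3_iso hij hik hjk h1 h5 h3))

private theorem c3_path {M : CoxeterMatrix (Fin 3)} (hP : PD M) {i j k : Fin 3} (hij : i ≠ j)
    (hik : i ≠ k) (hjk : j ≠ k) (h1 : 3 ≤ M i j) (h2 : 3 ≤ M j k) (h3 : M i k = 2) :
    Iso M MA3 ∨ Iso M MB3 ∨ Iso M CoxeterMatrix.H₃ := by
  by_cases h : M i j = 3
  · exact c3_path3 hP hij hik hjk h h2 h3
  · have h4 : M j k = 3 := by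
      by_contra h5
      exact c3_adj hP hij hik hjk (by omega) (by omega)
    have h6 : M k j = 3 := by rw [M.symmetric, h4]
    have h7 : 3 ≤ M j i := by rw [M.symmetric]; exact h1
    have h8 : M k i = 2 := by rw [M.symmetric, h3]
    exact c3_path3 hP hjk.symm hik.symm hij.symm h6 h7 h8

/-- Row K7. -/
theorem sp_c3 : SpC3 := by
  intro M hI hP
  have h01 := c3_two_le hP (by decide : (0 : Fin 3) ≠ 1)
  have h02 := c3_two_le hP (by decide : (0 : Fin 3) ≠ 2)
  have h12 := c3_two_le hP (by decide : (1 : Fin 3) ≠ 2)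
  have hX : ∀ i j k : Fin 3, j ≠ i → (∀ l, l = i ∨ l = j ∨ l = k) → M i j ≠ 2 ∨ M i k ≠ 2 := by
    intro i j k hji hall
    obtain ⟨a, ha, b, hb, h⟩ := hI {i} ⟨i, rfl⟩ ⟨j, hji⟩
    have ha' : a = i := ha
    have hb' : ¬ b = i := hb
    rcases hall b with h1 | h1 | h1
    · exact absurd h1 hb'
    · left
      rw [← ha', ← h1]
      exact h
    · right
      rw [← ha', ← h1]
      exact h
  have hA := hX 0 1 2 (by decide) (by decide)
  have hB := hX 1 0 2 (by decide) (by decide)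
  have hC := hX 2 0 1 (by decide) (by decide)
  rw [M.symmetric 1 0] at hB
  rw [M.symmetric 2 0, M.symmetric 2 1] at hC
  by_cases h2 : M 0 2 = 2
  · exact c3_path hP (by decide : (0 : Fin 3) ≠ 1) (by decide) (by decide) (by omega) (by omega) h2
  · by_cases h1 : M 0 1 = 2
    · have h3 : 3 ≤ M 2 1 := by
        rw [M.symmetric]
        omega
      exact c3_path hP (by decide : (0 : Fin 3) ≠ 2) (by decide) (by decide) (by omega) h3 h1
    · by_cases h3 : M 1 2 = 2
      · have h4 : 3 ≤ M 1 0 := by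
          rw [M.symmetric]
          omega
        exact c3_path hP (by decide : (1 : Fin 3) ≠ 0) (by decide) (by decide) h4 (by omega) h3
      · exact (c3_triangle hP (by decide : (0 : Fin 3) ≠ 1) (by decide : (0 : Fin 3) ≠ 2)
          (by decide : (1 : Fin 3) ≠ 2) (by omega) (by omega) (by omega)).elim

end Pool.Agent.H54.RK
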