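import Pool.Agent.H54.RK.Spec

/-!
# Project RK (MP_35eb49): row K8, classification of rank four
-/

set_option autoImplicit false

namespace Pool.Agent.H54.RK

/-- Four different indices. -/
private abbrev c4Dis (i j k l : Fin 4) : Prop :=
  i ≠ j ∧ i ≠ k ∧ i ≠ l ∧ j ≠ k ∧ j ≠ l ∧ k ≠ l

private lemma c4_bij {i j k l : Fin 4} (h : c4Dis i j k l) :
    Function.Bijective (![i, j, k, l] : Fin 4 → Fin 4) := by
  refine Finite.injective_iff_bijective.mp ?_
  obtain ⟨h1, h2, h3, h4, h5, h6⟩ := h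
  intro p q hpq
  fin_cases p <;> fin_cases q <;> simp_all

private lemma c4_iso {M M' : CoxeterMatrix (Fin 4)} {i j k l : Fin 4} (h : c4Dis i j k l)
    (h01 : M i j = M' 0 1) (h02 : M i k = M' 0 2) (h03 : M i l = M' 0 3)
    (h12 : M j k = M' 1 2) (h13 : M j l = M' 1 3) (h23 : M k l = M' 2 3) : Iso M M' := by
  have key : ∀ p q : Fin 4, M (![i, j, k, l] p) (![i, j, k, l] q) = M' p q := by
    intro p q
    have h10 : M j i = M' 1 0 := by rw [M.symmetric, M'.symmetric]; exact h01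
    have h20 : M k i = M' 2 0 := by rw [M.symmetric, M'.symmetric]; exact h02
    have h30 : M l i = M' 3 0 := by rw [M.symmetric, M'.symmetric]; exact h03
    have h21 : M k j = M' 2 1 := by rw [M.symmetric, M'.symmetric]; exact h12
    have h31 : M l j = M' 3 1 := by rw [M.symmetric, M'.symmetric]; exact h13
    have h32 : M l k = M' 3 2 := by rw [M.symmetric, M'.symmetric]; exact h23
    fin_cases p <;> fin_cases q <;>
      first
        | exact h01 | exact h02 | exact h03 | exact h12 | exact h13 | exact h23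
        | exact h10 | exact h20 | exact h30 | exact h21 | exact h31 | exact h32
        | exact (M.diagonal _).trans (M'.diagonal _).symm
  refine ⟨(Equiv.ofBijective _ (c4_bij h)).symm, fun p q => ?_⟩
  have hp : (![i, j, k, l] : Fin 4 → Fin 4) ((Equiv.ofBijective _ (c4_bij h)).symm p) = p :=
    Equiv.ofBijective_apply_symm_apply _ (c4_bij h) p
  have hq : (![i, j, k, l] : Fin 4 → Fin 4) ((Equiv.ofBijective _ (c4_bij h)).symm q) = q :=
    Equiv.ofBijective_apply_symm_apply _ (c4_bij h) q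
  rw [← key, hp, hq]

/-- The cosine of an entry. -/
private noncomputable def c4c (M : CoxeterMatrix (Fin 4)) (i j : Fin 4) : ℝ :=
  Real.cos (Real.pi / (M i j : ℝ))

private lemma c4_pd {M : CoxeterMatrix (Fin 4)} (hM : PD M) {i j k l : Fin 4}
    (h : c4Dis i j k l) (α β γ δ : ℝ) (hα : α ≠ 0) :
    0 < α ^ 2 + β ^ 2 + γ ^ 2 + δ ^ 2 - 2 * (α * β * c4c M i j + α * γ * c4c M i k
      + α * δ * c4c M i l + β * γ * c4c M j k + β * δ * c4c M j l + γ * δ * c4c M k l) := by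
  set e := Equiv.ofBijective _ (c4_bij h) with he
  have hx : (fun t => (![α, β, γ, δ] : Fin 4 → ℝ) (e.symm t)) ≠ 0 := by
    intro h0
    have := congrFun h0 (e 0)
    simp at this
    exact hα this
  have hB := hM _ hx
  have hd : ∀ p : Fin 4, bl M p p = 1 := by
    intro p
    simp [bl]
  have hs : ∀ p q : Fin 4, bl M p q = bl M q p := by
    intro p q
    simp only [bl, M.symmetric p q]
  have hc : ∀ p q : Fin 4, bl M p q = - c4c M p q := fun p q => rfl
  rw [← Equiv.sum_comp e] at hB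
  have hB2 : 0 < ∑ p : Fin 4, ∑ q : Fin 4, (![α, β, γ, δ] : Fin 4 → ℝ) p *
      (![α, β, γ, δ] : Fin 4 → ℝ) q *
      bl M ((![i, j, k, l] : Fin 4 → Fin 4) p) ((![i, j, k, l] : Fin 4 → Fin 4) q) := by
    refine lt_of_lt_of_eq hB (Finset.sum_congr rfl fun p _ => ?_)
    rw [← Equiv.sum_comp e]
    refine Finset.sum_congr rfl fun q _ => ?_
    simp only [Equiv.symm_apply_apply]
    rfl
  rw [Fin.sum_univ_four] at hB2
  simp only [Fin.sum_univ_four] at hB2
  simp only [Matrix.cons_val_zero, Matrix.cons_val_one, Matrix.cons_val] at hB2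
  rw [hd i, hd j, hd k, hd l, hs j i, hs k i, hs l i, hs k j, hs l j, hs l k,
    hc i j, hc i k, hc i l, hc j k, hc j l, hc k l] at hB2
  nlinarith [hB2]

private lemma c4_mono {M : CoxeterMatrix (Fin 4)} {i j : Fin 4} {m : ℕ} (hm : 1 ≤ m)
    (h : m ≤ M i j) : Real.cos (Real.pi / (m : ℝ)) ≤ c4c M i j := by
  have hm' : (1 : ℝ) ≤ (m : ℝ) := by exact_mod_cast hm
  have h' : (m : ℝ) ≤ (M i j : ℝ) := by exact_mod_cast h
  refine Real.cos_le_cos_of_nonneg_of_le_pi ?_ ?_ ?_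
  · positivity
  · exact div_le_self Real.pi_pos.le hm'
  · exact div_le_div_of_nonneg_left Real.pi_pos.le (by linarith) h'

private lemma c4_2 {M : CoxeterMatrix (Fin 4)} {i j : Fin 4} (h : 2 ≤ M i j) : 0 ≤ c4c M i j := by
  have := c4_mono (by norm_num) h
  simpa using this

private lemma c4_3 {M : CoxeterMatrix (Fin 4)} {i j : Fin 4} (h : 3 ≤ M i j) :
    1 / 2 ≤ c4c M i j := by
  have := c4_mono (by norm_num) h
  rw [Nat.cast_ofNat, Real.cos_pi_div_three] at this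
  exact this

private lemma c4_4 {M : CoxeterMatrix (Fin 4)} {i j : Fin 4} (h : 4 ≤ M i j) :
    √2 / 2 ≤ c4c M i j := by
  have := c4_mono (by norm_num) h
  rw [Nat.cast_ofNat, Real.cos_pi_div_four] at this
  exact this

private lemma c4_5 {M : CoxeterMatrix (Fin 4)} {i j : Fin 4} (h : 5 ≤ M i j) :
    (1 + √5) / 4 ≤ c4c M i j := by
  have := c4_mono (by norm_num) h
  rw [Nat.cast_ofNat, Real.cos_pi_div_five] at this
  exact this

private lemma c4_6 {M : CoxeterMatrix (Fin 4)} {i j : Fin 4} (h : 6 ≤ M i j) :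
    √3 / 2 ≤ c4c M i j := by
  have := c4_mono (by norm_num) h
  rw [Nat.cast_ofNat, Real.cos_pi_div_six] at this
  exact this

/-- No entry is zero. -/
private lemma c4_ge2 {M : CoxeterMatrix (Fin 4)} (hM : PD M) {i j k l : Fin 4}
    (h : c4Dis i j k l) : 2 ≤ M i j := by
  by_contra h2
  have h1 : M i j ≠ 1 := M.off_diagonal i j h.1
  have h0 : M i j = 0 := by omega
  have hB := c4_pd hM h 1 1 0 0 one_ne_zero
  have hc : c4c M i j = 1 := by simp [c4c, h0]
  rw [hc] at hB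
  linarith

/-- All entries are at least two. -/
private def c4Ge (M : CoxeterMatrix (Fin 4)) : Prop := ∀ i j : Fin 4, i ≠ j → 2 ≤ M i j

private lemma c4_ge {M : CoxeterMatrix (Fin 4)} (hM : PD M) : c4Ge M := by
  intro i j hij
  have : ∀ i j : Fin 4, i ≠ j → ∃ k l : Fin 4, c4Dis i j k l := by decide
  obtain ⟨k, l, h⟩ := this i j hij
  exact c4_ge2 hM h

private lemma c4_tri {M : CoxeterMatrix (Fin 4)} (hM : PD M) {i j k l : Fin 4}
    (h : c4Dis i j k l) (h1 : 3 ≤ M i j) (h2 : 3 ≤ M j k) (h3 : 3 ≤ M i k) : False := by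
  have hB := c4_pd hM h 1 1 1 0 one_ne_zero
  linarith [c4_3 h1, c4_3 h2, c4_3 h3]

private lemma c4_cyc {M : CoxeterMatrix (Fin 4)} (hM : PD M) {i j k l : Fin 4}
    (h : c4Dis i j k l) (h1 : 3 ≤ M i j) (h2 : 3 ≤ M j k) (h3 : 3 ≤ M k l) (h4 : 3 ≤ M i l) :
    False := by
  have hB := c4_pd hM h 1 1 1 1 one_ne_zero
  have g1 := c4_2 (c4_ge hM i k h.2.1)
  have g2 := c4_2 (c4_ge hM j l h.2.2.2.2.1)
  linarith [c4_3 h1, c4_3 h2, c4_3 h3, c4_3 h4]

private lemma c4_le5 {M : CoxeterMatrix (Fin 4)} (hM : PD M) {i j k l : Fin 4}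
    (h : c4Dis i j k l) (h1 : 6 ≤ M i j) (h2 : 3 ≤ M j k) : False := by
  have hs : (√3 : ℝ) * √3 = 3 := Real.mul_self_sqrt (by norm_num)
  have hp : (0 : ℝ) < √3 := Real.sqrt_pos.mpr (by norm_num)
  have hB := c4_pd hM h (√3) 2 1 0 hp.ne'
  have g1 := c4_2 (c4_ge hM i k h.2.1)
  have g2 := c4_6 h1
  have g3 := c4_3 h2
  have g4 : √3 * (√3 / 2) ≤ √3 * c4c M i j := mul_le_mul_of_nonneg_left g2 hp.le
  have g5 : 0 ≤ √3 * c4c M i k := mul_nonneg hp.le g1
  nlinarith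

private lemma c4_44 {M : CoxeterMatrix (Fin 4)} (hM : PD M) {i j k l : Fin 4}
    (h : c4Dis i j k l) (h1 : 4 ≤ M i j) (h2 : 4 ≤ M j k) : False := by
  have hs : (√2 : ℝ) * √2 = 2 := Real.mul_self_sqrt (by norm_num)
  have hp : (0 : ℝ) < √2 := Real.sqrt_pos.mpr (by norm_num)
  have hB := c4_pd hM h 1 (√2) 1 0 one_ne_zero
  have g1 := c4_2 (c4_ge hM i k h.2.1)
  have g4 : √2 * (√2 / 2) ≤ √2 * c4c M i j := mul_le_mul_of_nonneg_left (c4_4 h1) hp.le
  have g5 : √2 * (√2 / 2) ≤ √2 * c4c M j k := mul_le_mul_of_nonneg_left (c4_4 h2) hp.le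
  nlinarith

/-- In a star all labels are three. -/
private lemma c4_st {M : CoxeterMatrix (Fin 4)} (hM : PD M) {i j k l : Fin 4}
    (h : c4Dis i j k l) (h1 : 4 ≤ M i j) (h2 : 3 ≤ M j k) (h3 : 3 ≤ M j l) : False := by
  have hs : (√2 : ℝ) * √2 = 2 := Real.mul_self_sqrt (by norm_num)
  have hp : (0 : ℝ) < √2 := Real.sqrt_pos.mpr (by norm_num)
  have hB := c4_pd hM h (√2) 2 1 1 hp.ne'
  have g1 := c4_2 (c4_ge hM i k h.2.1)
  have g2 := c4_2 (c4_ge hM i l h.2.2.1)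
  have g3 := c4_2 (c4_ge hM k l h.2.2.2.2.2)
  have g4 : √2 * (√2 / 2) ≤ √2 * c4c M i j := mul_le_mul_of_nonneg_left (c4_4 h1) hp.le
  have g5 : 0 ≤ √2 * c4c M i k := mul_nonneg hp.le g1
  have g6 : 0 ≤ √2 * c4c M i l := mul_nonneg hp.le g2
  nlinarith [c4_3 h2, c4_3 h3]

private lemma c4_p5 {M : CoxeterMatrix (Fin 4)} (hM : PD M) {i j k l : Fin 4}
    (h : c4Dis i j k l) (h1 : 3 ≤ M i j) (h2 : 5 ≤ M j k) (h3 : 3 ≤ M k l) : False := by
  have hs : (√5 : ℝ) * √5 = 5 := Real.mul_self_sqrt (by norm_num)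
  have hp : (0 : ℝ) < √5 := Real.sqrt_pos.mpr (by norm_num)
  have hp2 : (2 : ℝ) < √5 := by
    rw [Real.lt_sqrt (by norm_num)]; norm_num
  have hB := c4_pd hM h 1 2 2 1 one_ne_zero
  have g1 := c4_2 (c4_ge hM i k h.2.1)
  have g2 := c4_2 (c4_ge hM i l h.2.2.1)
  have g3 := c4_2 (c4_ge hM j l h.2.2.2.2.1)
  linarith [c4_3 h1, c4_5 h2, c4_3 h3]

private lemma c4_p44 {M : CoxeterMatrix (Fin 4)} (hM : PD M) {i j k l : Fin 4}
    (h : c4Dis i j k l) (h1 : 4 ≤ M i j) (h2 : 3 ≤ M j k) (h3 : 4 ≤ M k l) : False := by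
  have hs : (√2 : ℝ) * √2 = 2 := Real.mul_self_sqrt (by norm_num)
  have hp : (0 : ℝ) < √2 := Real.sqrt_pos.mpr (by norm_num)
  have hB := c4_pd hM h 1 (√2) (√2) 1 one_ne_zero
  have g1 := c4_2 (c4_ge hM i k h.2.1)
  have g2 := c4_2 (c4_ge hM i l h.2.2.1)
  have g3 := c4_2 (c4_ge hM j l h.2.2.2.2.1)
  have g4 : √2 * (√2 / 2) ≤ √2 * c4c M i j := mul_le_mul_of_nonneg_left (c4_4 h1) hp.le
  have g5 : √2 * (√2 / 2) ≤ √2 * c4c M k l := mul_le_mul_of_nonneg_left (c4_4 h3) hp.le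
  have g6 : 0 ≤ √2 * c4c M i k := mul_nonneg hp.le g1
  have g7 : 0 ≤ √2 * c4c M j l := mul_nonneg hp.le g3
  have g8 := c4_3 h2
  have g9 : √2 * √2 * (1 / 2) ≤ √2 * √2 * c4c M j k :=
    mul_le_mul_of_nonneg_left g8 (mul_nonneg hp.le hp.le)
  nlinarith

/-- The possible types. -/
private def c4Goal (M : CoxeterMatrix (Fin 4)) : Prop :=
  Iso M MA4 ∨ Iso M MB4 ∨ Iso M MD4' ∨ Iso M CoxeterMatrix.F₄ ∨ Iso M CoxeterMatrix.H₄

private lemma c4_star {M : CoxeterMatrix (Fin 4)} (hM : PD M) (i j k l : Fin 4)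
    (h : c4Dis i j k l) (h1 : 3 ≤ M i j) (h2 : 3 ≤ M j k) (h3 : 3 ≤ M j l)
    (h4 : M i k = 2) (h5 : M i l = 2) (h6 : M k l = 2) : c4Goal M := by
  obtain ⟨d1, d2, d3, d4, d5, d6⟩ := h
  have e1 : M i j = 3 := by
    by_contra hn
    exact c4_st hM (i := i) (j := j) (k := k) (l := l) ⟨d1, d2, d3, d4, d5, d6⟩ (by omega) h2 h3
  have e2 : M j k = 3 := by
    by_contra hn
    refine c4_st hM (i := k) (j := j) (k := i) (l := l)
      ⟨d4.symm, d2.symm, d6, d1.symm, d5, d3⟩ ?_ ?_ h3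
    · rw [M.symmetric]; omega
    · rw [M.symmetric]; exact h1
  have e3 : M j l = 3 := by
    by_contra hn
    refine c4_st hM (i := l) (j := j) (k := i) (l := k)
      ⟨d5.symm, d3.symm, d6.symm, d1.symm, d4, d2⟩ ?_ ?_ h2
    · rw [M.symmetric]; omega
    · rw [M.symmetric]; exact h1
  exact Or.inr (Or.inr (Or.inl (c4_iso (i := i) (j := j) (k := k) (l := l)
    ⟨d1, d2, d3, d4, d5, d6⟩ (e1.trans rfl) (h4.trans rfl) (h5.trans rfl) (e2.trans rfl)
    (e3.trans rfl) (h6.trans rfl))))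

private lemma c4_path {M : CoxeterMatrix (Fin 4)} (hM : PD M) (i j k l : Fin 4)
    (h : c4Dis i j k l) (h1 : 3 ≤ M i j) (h2 : 3 ≤ M j k) (h3 : 3 ≤ M k l)
    (h4 : M i k = 2) (h5 : M i l = 2) (h6 : M j l = 2) : c4Goal M := by
  have hh := h
  obtain ⟨d1, d2, d3, d4, d5, d6⟩ := h
  have hr : c4Dis l k j i := ⟨d6.symm, d5.symm, d3.symm, d4.symm, d2.symm, d1.symm⟩
  have s1 : M j i = M i j := M.symmetric _ _
  have s2 : M k j = M j k := M.symmetric _ _
  have s3 : M l k = M k l := M.symmetric _ _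
  have s4 : M k i = M i k := M.symmetric _ _
  have s5 : M l i = M i l := M.symmetric _ _
  have s6 : M l j = M j l := M.symmetric _ _
  have b1 : M i j ≤ 5 := by
    by_contra hn
    exact c4_le5 hM hh (by omega) h2
  have b3 : M k l ≤ 5 := by
    by_contra hn
    exact c4_le5 hM hr (by omega) (by omega)
  have b2 : M j k ≤ 4 := by
    by_contra hn
    exact c4_p5 hM hh h1 (by omega) h3
  have c1 : ¬ (4 ≤ M i j ∧ 4 ≤ M j k) := fun hn => c4_44 hM hh hn.1 hn.2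
  have c2 : ¬ (4 ≤ M k l ∧ 4 ≤ M j k) := fun hn => c4_44 hM hr (by omega) (by omega)
  have c3 : ¬ (4 ≤ M i j ∧ 4 ≤ M k l) := fun hn => c4_p44 hM hh hn.1 h2 hn.2
  have hcases : (M i j = 3 ∧ M j k = 3 ∧ M k l = 3) ∨ (M i j = 3 ∧ M j k = 3 ∧ M k l = 4) ∨
      (M i j = 4 ∧ M j k = 3 ∧ M k l = 3) ∨ (M i j = 3 ∧ M j k = 4 ∧ M k l = 3) ∨
      (M i j = 3 ∧ M j k = 3 ∧ M k l = 5) ∨ (M i j = 5 ∧ M j k = 3 ∧ M k l = 3) := by
    omega
  rcases hcases with ⟨a, b, c⟩ | ⟨a, b, c⟩ | ⟨a, b, c⟩ | ⟨a, b, c⟩ | ⟨a, b, c⟩ | ⟨a, b, c⟩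
  · exact Or.inl (c4_iso hh (a.trans rfl) (h4.trans rfl) (h5.trans rfl) (b.trans rfl)
      (h6.trans rfl) (c.trans rfl))
  · exact Or.inr (Or.inl (c4_iso hh (a.trans rfl) (h4.trans rfl) (h5.trans rfl) (b.trans rfl)
      (h6.trans rfl) (c.trans rfl)))
  · exact Or.inr (Or.inl (c4_iso hr (s3.trans (c.trans rfl)) (s6.trans (h6.trans rfl))
      (s5.trans (h5.trans rfl)) (s2.trans (b.trans rfl)) (s4.trans (h4.trans rfl))
      (s1.trans (a.trans rfl))))
  · exact Or.inr (Or.inr (Or.inr (Or.inl (c4_iso hh (a.trans rfl) (h4.trans rfl) (h5.trans rfl)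
      (b.trans rfl) (h6.trans rfl) (c.trans rfl)))))
  · exact Or.inr (Or.inr (Or.inr (Or.inr (c4_iso hh (a.trans rfl) (h4.trans rfl) (h5.trans rfl)
      (b.trans rfl) (h6.trans rfl) (c.trans rfl)))))
  · exact Or.inr (Or.inr (Or.inr (Or.inr (c4_iso hr (s3.trans (c.trans rfl))
      (s6.trans (h6.trans rfl)) (s5.trans (h5.trans rfl)) (s2.trans (b.trans rfl))
      (s4.trans (h4.trans rfl)) (s1.trans (a.trans rfl))))))

/-- The graph on four points with the six given edges. -/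
private def c4E (a b c d e f : Bool) (i j : Fin 4) : Bool :=
  match i.val, j.val with
  | 0, 1 => a
  | 1, 0 => a
  | 0, 2 => b
  | 2, 0 => b
  | 0, 3 => c
  | 3, 0 => c
  | 1, 2 => d
  | 2, 1 => d
  | 1, 3 => e
  | 3, 1 => e
  | 2, 3 => f
  | 3, 2 => f
  | _, _ => false

private def c4T (E : Fin 4 → Fin 4 → Bool) : Prop :=
  ∀ i j k l : Fin 4, c4Dis i j k l → ¬ (E i j = true ∧ E j k = true ∧ E i k = true)

private def c4Q (E : Fin 4 → Fin 4 → Bool) : Prop :=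
  ∀ i j k l : Fin 4, c4Dis i j k l →
    ¬ (E i j = true ∧ E j k = true ∧ E k l = true ∧ E i l = true)

private def c4K (E : Fin 4 → Fin 4 → Bool) : Prop :=
  ∀ x y z t : Bool, (∃ i : Fin 4, (![x, y, z, t] : Fin 4 → Bool) i = true) →
    (∃ i : Fin 4, (![x, y, z, t] : Fin 4 → Bool) i = false) →
    ∃ i j : Fin 4, (![x, y, z, t] : Fin 4 → Bool) i = true ∧
      (![x, y, z, t] : Fin 4 → Bool) j = false ∧ E i j = true

private def c4G (E : Fin 4 → Fin 4 → Bool) : Prop :=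
  ∃ i j k l : Fin 4, c4Dis i j k l ∧
    ((E i j = true ∧ E j k = true ∧ E j l = true ∧ E i k = false ∧ E i l = false ∧
      E k l = false) ∨
    (E i j = true ∧ E j k = true ∧ E k l = true ∧ E i k = false ∧ E i l = false ∧
      E j l = false))

private instance c4T_dec (E : Fin 4 → Fin 4 → Bool) : Decidable (c4T E) := by
  unfold c4T
  infer_instance

private instance c4Q_dec (E : Fin 4 → Fin 4 → Bool) : Decidable (c4Q E) := by
  unfold c4Q
  infer_instance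

private instance c4K_dec (E : Fin 4 → Fin 4 → Bool) : Decidable (c4K E) := by
  unfold c4K
  infer_instance

private instance c4G_dec (E : Fin 4 → Fin 4 → Bool) : Decidable (c4G E) := by
  unfold c4G
  infer_instance

/-- A connected graph on four points without triangles and squares is a star or a path. -/
private lemma c4_comb : ∀ a b c d e f : Bool, c4T (c4E a b c d e f) → c4Q (c4E a b c d e f) →
    c4K (c4E a b c d e f) → c4G (c4E a b c d e f) := by
  decide +kernel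

private lemma c4_tab (M : CoxeterMatrix (Fin 4)) (i j : Fin 4) (h : i ≠ j) :
    c4E (decide (3 ≤ M 0 1)) (decide (3 ≤ M 0 2)) (decide (3 ≤ M 0 3)) (decide (3 ≤ M 1 2))
      (decide (3 ≤ M 1 3)) (decide (3 ≤ M 2 3)) i j = decide (3 ≤ M i j) := by
  fin_cases i <;> fin_cases j <;> first
    | exact absurd rfl h
    | rfl
    | exact congrArg (fun n => decide (3 ≤ n)) (M.symmetric _ _)

/-- A cut gives an edge. -/
private lemma c4_cut {M : CoxeterMatrix (Fin 4)} (hI : Irr M) (hg : c4Ge M) (X : Fin 4 → Bool)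
    (h1 : ∃ i, X i = true) (h2 : ∃ i, X i = false) :
    ∃ i j, X i = true ∧ X j = false ∧ 3 ≤ M i j := by
  obtain ⟨a, ha⟩ := h1
  obtain ⟨b, hb⟩ := h2
  obtain ⟨i, hi, j, hj, hij⟩ := hI {i | X i = true} ⟨a, ha⟩ ⟨b, fun h => by
    have h' : X b = true := h
    rw [hb] at h'
    exact Bool.false_ne_true h'⟩
  have hi' : X i = true := hi
  have hj' : X j = false := by
    have : ¬ X j = true := hj
    simpa using this
  have hne : i ≠ j := by
    intro h
    rw [h, hj'] at hi'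
    exact Bool.false_ne_true hi'
  have := hg i j hne
  exact ⟨i, j, hi', hj', by omega⟩

theorem sp_c4 : SpC4 := by
  intro M hI hM
  change c4Goal M
  have hg := c4_ge hM
  have tab := c4_tab M
  have tr : ∀ i j : Fin 4, i ≠ j → c4E (decide (3 ≤ M 0 1)) (decide (3 ≤ M 0 2))
      (decide (3 ≤ M 0 3)) (decide (3 ≤ M 1 2)) (decide (3 ≤ M 1 3)) (decide (3 ≤ M 2 3)) i j
      = true → 3 ≤ M i j := by
    intro i j h he
    rw [tab i j h] at he
    exact of_decide_eq_true he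
  have fa : ∀ i j : Fin 4, i ≠ j → c4E (decide (3 ≤ M 0 1)) (decide (3 ≤ M 0 2))
      (decide (3 ≤ M 0 3)) (decide (3 ≤ M 1 2)) (decide (3 ≤ M 1 3)) (decide (3 ≤ M 2 3)) i j
      = false → M i j = 2 := by
    intro i j h he
    rw [tab i j h] at he
    have h3 := of_decide_eq_false he
    have h2 := hg i j h
    omega
  obtain ⟨i, j, k, l, hd, h⟩ := c4_comb (decide (3 ≤ M 0 1)) (decide (3 ≤ M 0 2))
    (decide (3 ≤ M 0 3)) (decide (3 ≤ M 1 2)) (decide (3 ≤ M 1 3)) (decide (3 ≤ M 2 3))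
    (fun i j k l hd h => c4_tri hM hd (tr i j hd.1 h.1) (tr j k hd.2.2.2.1 h.2.1)
      (tr i k hd.2.1 h.2.2))
    (fun i j k l hd h => c4_cyc hM hd (tr i j hd.1 h.1) (tr j k hd.2.2.2.1 h.2.1)
      (tr k l hd.2.2.2.2.2 h.2.2.1) (tr i l hd.2.2.1 h.2.2.2))
    (fun x y z t h1 h2 => by
      obtain ⟨i, j, hi, hj, hij⟩ := c4_cut hI hg _ h1 h2
      have hne : i ≠ j := by
        intro h
        rw [h, hj] at hi
        exact Bool.false_ne_true hi
      exact ⟨i, j, hi, hj, (tab i j hne).trans (decide_eq_true hij)⟩)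
  obtain ⟨d1, d2, d3, d4, d5, d6⟩ := id hd
  rcases h with ⟨a1, a2, a3, a4, a5, a6⟩ | ⟨a1, a2, a3, a4, a5, a6⟩
  · exact c4_star hM i j k l hd (tr _ _ d1 a1) (tr _ _ d4 a2) (tr _ _ d5 a3) (fa _ _ d2 a4)
      (fa _ _ d3 a5) (fa _ _ d6 a6)
  · exact c4_path hM i j k l hd (tr _ _ d1 a1) (tr _ _ d4 a2) (tr _ _ d6 a3) (fa _ _ d2 a4)
      (fa _ _ d3 a5) (fa _ _ d5 a6)

end Pool.Agent.H54.RK
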