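import Pool.Agent.H54.RK.SpecDi
import Pool.Agent.H54.RF.Cone

/-!
# Project RK (MP_35eb49), row K9c: conclusion for the dihedral types
-/

set_option autoImplicit false

namespace Pool.Agent.H54.RK

open Pool.Agent.H54.RF

private theorem dic_sum : (0 : Fin 3 → ℤ) + e 0 + e 1 + e 2 = 0 + 1 := by
  funext i
  fin_cases i <;> simp [e]

private theorem dic_conj_one {G : Type} [Group G] (H : Subgroup G) :
    H.map (MulAut.conj (1 : G)).toMonoidHom = H := by
  ext z
  simp

theorem sp_diC : SpDiC := by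
  intro M hM S _ x hC hD hR g hg hidx
  have hB := NC.basic S
  obtain ⟨val, hgrp, hval, htop⟩ := sp_rz 2 M S ![x 0, x 1] [0, 1] (M 0 1) hB hC hR
  obtain ⟨gr, hδ, hgrk, hlen, hinj, hsimple, hle, hinf⟩ := gar S (Art M) val hgrp hD.ne
  letI := gr
  have hG : Gv val := ⟨hgrp.mult, hinj, hδ, hsimple, hle, hinf, hlen⟩
  have hP : PJt val := sp_pJ S (Art M) val hB hC hG
  have hlδ : Gar.len (Gar.δ : Art M) = 2 := by
    rw [hδ, hlen, hD.rk_top]
    rfl
  have himg : ∀ l : List (Fin 2), val '' (![x 0, x 1] '' {i | i ∈ l}) =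
      (PresentedGroup.of '' {i : Fin 2 | i ∈ l} : Set (Art M)) := by
    intro l
    rw [Set.image_image]
    exact Set.image_congr fun i _ => hval i
  have hx1 : x 0 ≠ NC.bo S := by
    intro h3
    have := hD.rk_x 0
    rw [h3, hB.rk_bo] at this
    omega
  have hx2 : x 0 ≠ ⊤ := by
    intro h3
    have := hD.rk_x 0
    rw [h3, hD.rk_top] at this
    omega
  have hch : NC.Chain ![x 0, x 1] [(0 : Fin 2)] (x 0) := by
    refine ⟨le_refl (x 0), ?_⟩
    exact hB.dv_self (x 0)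
  have hstd := sp_std S (Art M) val hB hC hG 2 ![x 0, x 1] hR.rk_a [0] (x 0) hch
  obtain ⟨hne1, hne2⟩ := hP.ne (x 0) hx2 hx1
  -- `g` is not periodic
  have hper : ∀ m : ℕ, 0 < m → ∀ k : ℤ, g ^ m ≠ Gar.δ ^ k := by
    intro m hm k hk
    refine hg (GJ val (x 0)) ⟨{i | i ∈ [(0 : Fin 2)]}, 1, ?_⟩ hne1 hne2 (m * ord (Art M))
      (Nat.mul_pos hm Gar.ord_pos) ?_
    · rw [dic_conj_one, hstd, himg]
    have hcen : ∀ x : Art M, g ^ (m * ord (Art M)) * x = x * g ^ (m * ord (Art M)) := by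
      intro x
      rw [pow_mul, hk, ← zpow_natCast, ← zpow_mul, mul_comm k, zpow_mul, zpow_natCast]
      have h4 := Gar.central_zpow k x
      rw [zpow_mul, zpow_natCast] at h4
      exact h4
    ext x
    constructor
    · rintro ⟨w, hw, rfl⟩
      have : (MulAut.conj (g ^ (m * ord (Art M)))).toMonoidHom w = w := by
        simp only [MulEquiv.coe_toMonoidHom, MulAut.conj_apply]
        rw [hcen w, mul_assoc, mul_inv_cancel, mul_one]
      rw [this]
      exact hw
    · intro hx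
      refine ⟨x, hx, ?_⟩
      simp only [MulEquiv.coe_toMonoidHom, MulAut.conj_apply]
      rw [hcen x, mul_assoc, mul_inv_cancel, mul_one]
  obtain ⟨Y, D, Z, N, hF, -, -⟩ := flat3_of sp_cone (Art M) g hper hidx
  have h1 := Gar.len_lt (hF.lt 0 0)
  have h2 := Gar.len_lt (hF.lt (0 + e 0) 1)
  have h3 := Gar.len_lt (hF.lt (0 + e 0 + e 1) 2)
  rw [dic_sum, hF.diag 0, Gar.len_mul, hlδ] at h3
  omega

end Pool.Agent.H54.RK
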