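import Pool.Agent.H54.RK.SpecDi

/-!
# Project RK (MP_35eb49): the dual germ of the dihedral types (row K9a)

The germ is the set of a bottom element, a top element and atoms indexed by `ZMod m`, in which the
complement of the atom `x i` is the atom `x (i + 1)`.
-/

set_option autoImplicit false

namespace Pool.Agent.H54.RK

open Pool.Agent.H54.RF

/-- The simple elements of the dual structure of the dihedral type `m`. -/
inductive DiT (m : ℕ) : Type
  | bo : DiT m
  | x (i : ZMod m) : DiT m
  | top : DiT m

namespace DiT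

variable {m : ℕ}

/-- The order: the atoms are incomparable. -/
def le : DiT m → DiT m → Prop
  | bo, _ => True
  | x _, bo => False
  | x i, x j => i = j
  | x _, top => True
  | top, bo => False
  | top, x _ => False
  | top, top => True

/-- The meet of two elements. -/
def inf : DiT m → DiT m → DiT m
  | bo, _ => bo
  | x _, bo => bo
  | x i, x j => if i = j then x i else bo
  | x i, top => x i
  | top, bo => bo
  | top, x j => x j
  | top, top => top

/-- The complement. -/
def Kc : DiT m → DiT m
  | bo => top
  | x i => x (i + 1)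
  | top => bo

/-- The rank. -/
def rkc : DiT m → ℕ
  | bo => 0
  | x _ => 1
  | top => 2

instance : SemilatticeInf (DiT m) where
  le := le
  le_refl := by
    rintro (_ | i | _) <;> simp [le]
  le_trans := by
    rintro (_ | i | _) (_ | j | _) (_ | k | _) <;> simp +contextual [le]
  le_antisymm := by
    rintro (_ | i | _) (_ | j | _) <;> simp +contextual [le]
  inf := inf
  inf_le_left := by
    rintro (_ | i | _) (_ | j | _) <;> simp [le, inf]; split_ifs <;> simp_all
  inf_le_right := by
    rintro (_ | i | _) (_ | j | _) <;> simp [le, inf]; split_ifs <;> simp_all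
  le_inf := by
    rintro (_ | i | _) (_ | j | _) (_ | k | _) <;> simp +contextual [le, inf]

instance : OrderTop (DiT m) where
  top := top
  le_top := by
    rintro (_ | i | _) <;> trivial

private theorem bo_le (a : DiT m) : (bo : DiT m) ≤ a := trivial

private theorem le_bo (a : DiT m) : a ≤ bo ↔ a = bo := by
  rcases a with _ | i | _
  · exact ⟨fun _ => rfl, fun _ => trivial⟩
  · exact ⟨fun h => h.elim, fun h => by simp at h⟩
  · exact ⟨fun h => h.elim, fun h => by simp at h⟩

private theorem x_le (i j : ZMod m) : x i ≤ x j ↔ i = j := Iff.rfl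

private theorem le_top' (a : DiT m) : a ≤ (top : DiT m) := by
  rcases a with _ | i | _ <;> trivial

private theorem top_le (a : DiT m) : (top : DiT m) ≤ a ↔ a = top := by
  rcases a with _ | i | _
  · exact ⟨fun h => h.elim, fun h => by simp at h⟩
  · exact ⟨fun h => h.elim, fun h => by simp at h⟩
  · exact ⟨fun _ => rfl, fun _ => trivial⟩

private theorem bo_inf (a : DiT m) : (bo : DiT m) ⊓ a = bo := by
  rcases a with _ | i | _ <;> rfl

private theorem inf_bo (a : DiT m) : a ⊓ (bo : DiT m) = bo := by
  rcases a with _ | i | _ <;> rfl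

private theorem top_inf (a : DiT m) : (top : DiT m) ⊓ a = a := by
  rcases a with _ | i | _ <;> rfl

private theorem inf_top (a : DiT m) : a ⊓ (top : DiT m) = a := by
  rcases a with _ | i | _ <;> rfl

private theorem x_inf (i j : ZMod m) : (x i : DiT m) ⊓ x j = if i = j then x i else bo := rfl

private theorem ne1 (hm : 3 ≤ m) (i : ZMod m) : i + 1 ≠ i := by
  intro h
  have h1 : (1 : ZMod m) = 0 := by simpa using h
  have : Fact (1 < m) := ⟨by omega⟩
  exact one_ne_zero h1

private theorem fin (hm : 3 ≤ m) : Finite (DiT m) := by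
  have : NeZero m := ⟨by omega⟩
  refine Finite.of_surjective (fun a : Option (Option (ZMod m)) => match a with
    | none => (bo : DiT m)
    | some none => top
    | some (some i) => x i) ?_
  rintro (_ | i | _)
  · exact ⟨none, rfl⟩
  · exact ⟨some (some i), rfl⟩
  · exact ⟨some none, rfl⟩

/-- The germ. -/
@[reducible] def nc (hm : 3 ≤ m) : NC (DiT m) where
  fin := fin hm
  K := Kc
  K_le := by
    rintro (_ | i | _) (_ | j | _) <;> simp [Kc, bo_le, le_bo, x_le, le_top', top_le, eq_comm]
  star := by
    rintro (_ | i | _) (_ | j | _) <;>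
      simp +contextual [Kc, bo_le, le_bo, x_le, top_le, top_inf, inf_top, x_inf, ne1 hm]
  rk := rkc
  rk_quo := by
    rintro (_ | i | _) (_ | j | _) <;>
      simp +contextual [Kc, le_bo, x_le, top_le, bo_inf, inf_bo, top_inf, inf_top, x_inf,
        ne1 hm, rkc]
  rk_pos := by
    rintro (_ | i | _) h
    · exact absurd rfl h
    · simp [rkc]
    · simp [rkc]

private theorem dv_top (hm : 3 ≤ m) (i : ZMod m) (k : ℕ) :
    letI := nc hm
    (fun a : DiT m => NC.dv a top)^[k] (x i) = x (i + (k : ZMod m)) := by
  let _ := nc hm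
  induction k with
  | zero => simp
  | succ k ih =>
    rw [Function.iterate_succ_apply', ih]
    have h : NC.dv (x (i + (k : ZMod m)) : DiT m) top = x (i + (k : ZMod m) + 1) := rfl
    rw [h, Nat.cast_succ, add_assoc]

private theorem conn (hm : 3 ≤ m) : letI := nc hm; NC.Conn (DiT m) := by
  let _ := nc hm
  have r1 : ∀ a : DiT m, NC.rk a = 1 → ∃ i, a = x i := by
    rintro (_ | i | _) h
    · exact absurd (show (0 : ℕ) = 1 from h) (by decide)
    · exact ⟨i, rfl⟩
    · exact absurd (show (2 : ℕ) = 1 from h) (by decide)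
  have r2 : ∀ a : DiT m, 2 ≤ NC.rk a → a = top := by
    rintro (_ | i | _) h
    · exact absurd (show (2 : ℕ) ≤ 0 from h) (by decide)
    · exact absurd (show (2 : ℕ) ≤ 1 from h) (by decide)
    · rfl
  refine ⟨?_, ?_, ?_⟩
  · rintro (_ | i | _) h
    · exact absurd rfl h
    · exact ⟨x i, rfl, le_refl _⟩
    · exact ⟨x 0, rfl, le_top' _⟩
  · intro a ha r s hr hs _ _
    obtain ⟨i, rfl⟩ := r1 r hr
    obtain ⟨j, rfl⟩ := r1 s hs
    obtain rfl := r2 a ha.ge
    have : NeZero m := ⟨by omega⟩
    refine ⟨(j - i).val, ?_⟩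
    rw [dv_top hm, ZMod.natCast_zmod_val, add_sub_cancel]
  · intro a ha
    have h2 := r2 a (by omega)
    subst h2
    exact absurd (show (3 : ℕ) ≤ 2 from ha) (by decide)

end DiT

/-- Row K9a: the germ of the dihedral type exists. -/
theorem sp_diG : SpDiG := by
  intro m hm
  refine ⟨DiT m, DiT.nc hm, DiT.x, ?_, DiT.conn hm⟩
  let _ := DiT.nc hm
  refine ⟨?_, rfl, fun _ => rfl, ?_, ?_, fun _ => rfl⟩
  · intro h
    have h' : (DiT.bo : DiT m) = DiT.top := h
    simp at h'
  · rintro (_ | i | _)
    · exact Or.inl rfl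
    · exact Or.inr (Or.inr ⟨i, rfl⟩)
    · exact Or.inr (Or.inl rfl)
  · intro i j h
    exact DiT.x.inj h

end Pool.Agent.H54.RK
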