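import Pool.Agent.H54.RK.SpecDi

/-!
# Project RK (MP_35eb49), row K9b: realisation of the dihedral germ
-/

set_option autoImplicit false

namespace Pool.Agent.H54.RK

open Pool.Agent.H54.RF NC

section

variable {G : Type} [Group G]

private theorem dr_alt_step {α : Type} (f : α → G) (i j : α) (n : ℕ) :
    ((CoxeterSystem.alternatingWord i j (n + 2)).map f).prod =
      ((CoxeterSystem.alternatingWord i j n).map f).prod * (f i * f j) := by
  rw [CoxeterSystem.alternatingWord_succ, CoxeterSystem.alternatingWord_succ]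
  simp [mul_assoc]

private theorem dr_alt_even {α : Type} (f : α → G) (i j : α) (k : ℕ) :
    ((CoxeterSystem.alternatingWord i j (2 * k)).map f).prod = (f i * f j) ^ k := by
  induction k with
  | zero => simp [CoxeterSystem.alternatingWord]
  | succ k ih =>
    rw [show 2 * (k + 1) = 2 * k + 2 by ring, dr_alt_step, ih, pow_succ]

private theorem dr_alt_odd {α : Type} (f : α → G) (i j : α) (k : ℕ) :
    ((CoxeterSystem.alternatingWord i j (2 * k + 1)).map f).prod = f j * (f i * f j) ^ k := by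
  induction k with
  | zero => simp [CoxeterSystem.alternatingWord]
  | succ k ih =>
    rw [show 2 * (k + 1) + 1 = 2 * k + 1 + 2 by ring, dr_alt_step, ih, pow_succ, mul_assoc]

/-- consequences of the even relation -/
private theorem dr_ev (a b : G) (k : ℕ) (h : (a * b) ^ k = (b * a) ^ k) :
    a * (a * b) ^ k = (a * b) ^ k * a ∧ b * (a * b) ^ k = (a * b) ^ k * b := by
  constructor
  · rw [mul_pow_mul, h]
  · rw [← mul_pow_mul, ← h]

/-- consequences of the odd relation -/
private theorem dr_od (a b : G) (k : ℕ) (h : b * (a * b) ^ k = a * (b * a) ^ k) :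
    b * (a * b) ^ k = (a * b) ^ k * a ∧ a * (a * b) ^ (k + 1) = (a * b) ^ (k + 1) * b := by
  have h1 : b * (a * b) ^ k = (a * b) ^ k * a := by rw [h, mul_pow_mul]
  refine ⟨h1, ?_⟩
  calc a * (a * b) ^ (k + 1) = a * ((a * b) ^ k * a) * b := by
        rw [pow_succ]; simp only [mul_assoc]
    _ = a * (b * (a * b) ^ k) * b := by rw [h1]
    _ = (a * b) ^ (k + 1) * b := by
        rw [pow_succ']; simp only [mul_assoc]

end

section

variable (M : CoxeterMatrix (Fin 2))

private theorem dr_rel : ((CoxeterSystem.alternatingWord (0 : Fin 2) 1 (M 0 1)).map (ge M)).prod =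
    ((CoxeterSystem.alternatingWord (1 : Fin 2) 0 (M 0 1)).map (ge M)).prod := by
  have h := PresentedGroup.one_of_mem (rels := Rel M)
    (x := ((CoxeterSystem.alternatingWord (0 : Fin 2) 1 (M 0 1)).map FreeGroup.of).prod *
      (((CoxeterSystem.alternatingWord (1 : Fin 2) 0 (M 0 1)).map FreeGroup.of).prod)⁻¹)
    ⟨(0, 1), rfl⟩
  rw [map_mul, map_inv, mul_inv_eq_one, map_list_prod, map_list_prod, List.map_map,
    List.map_map] at h
  exact h

private theorem dr_wd : wd M [0, 1] = ge M 0 * ge M 1 := by simp [wd]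

private theorem dr_even {k : ℕ} (hm : 2 * k = M 0 1) :
    ge M 0 * wd M [0, 1] ^ k = wd M [0, 1] ^ k * ge M 0 ∧
      ge M 1 * wd M [0, 1] ^ k = wd M [0, 1] ^ k * ge M 1 ∧
      wd M [0, 1] ^ k = (ge M 1 * ge M 0) ^ k := by
  have h := dr_rel M
  rw [← hm, dr_alt_even, dr_alt_even] at h
  rw [dr_wd]
  exact ⟨(dr_ev _ _ k h).1, (dr_ev _ _ k h).2, h⟩

private theorem dr_odd {k : ℕ} (hm : 2 * k + 1 = M 0 1) :
    ge M 1 * wd M [0, 1] ^ k = wd M [0, 1] ^ k * ge M 0 ∧
      ge M 0 * wd M [0, 1] ^ (k + 1) = wd M [0, 1] ^ (k + 1) * ge M 1 := by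
  have h := dr_rel M
  rw [← hm, dr_alt_odd, dr_alt_odd] at h
  rw [dr_wd]
  exact dr_od _ _ k h

private theorem dr_cen : ge M 0 * wd M [0, 1] ^ (M 0 1) = wd M [0, 1] ^ (M 0 1) * ge M 0 ∧
    ge M 1 * wd M [0, 1] ^ (M 0 1) = wd M [0, 1] ^ (M 0 1) * ge M 1 := by
  rcases Nat.even_or_odd' (M 0 1) with ⟨k, hk | hk⟩
  · obtain ⟨h1, h2, _⟩ := dr_even M hk.symm
    have e : M 0 1 = k + k := by omega
    rw [e, pow_add]
    constructor
    · rw [← mul_assoc, h1, mul_assoc, h1, mul_assoc]
    · rw [← mul_assoc, h2, mul_assoc, h2, mul_assoc]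
  · obtain ⟨h1, h2⟩ := dr_odd M hk.symm
    constructor
    · have e : M 0 1 = (k + 1) + k := by omega
      rw [e, pow_add, ← mul_assoc, h2, mul_assoc, h1, mul_assoc]
    · have e : M 0 1 = k + (k + 1) := by omega
      rw [e, pow_add, ← mul_assoc, h1, mul_assoc, h2, mul_assoc]

end

section

variable {m : ℕ} {S : Type} [NC S] {x : ZMod m → S}

private theorem dr_tau (h : DG m S x) (i : ZMod m) (k : ℕ) :
    tau^[k] (x i) = x (i + 2 * (k : ZMod m)) := by
  induction k with
  | zero => simp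
  | succ k ih =>
    rw [Function.iterate_succ_apply', ih]
    unfold tau
    rw [h.K_x, h.K_x]
    congr 1
    push_cast
    ring

private theorem dr_K (h : DG m S x) (i : ZMod m) (k : ℕ) :
    (fun y => dv y (⊤ : S))^[k] (x i) = x (i + (k : ZMod m)) := by
  induction k with
  | zero => simp
  | succ k ih =>
    rw [Function.iterate_succ_apply', ih]
    show dv (x (i + (k : ZMod m))) ⊤ = _
    rw [(basic S).dv_top, h.K_x]
    congr 1
    push_cast
    ring

private theorem dr_cast {m a b : ℕ} (h : ((a : ℕ) : ZMod m) = ((b : ℕ) : ZMod m)) (hab : b ≤ a) :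
    ∃ t, a = b + m * t := by
  have h1 : ((a - b : ℕ) : ZMod m) = 0 := by
    rw [Nat.cast_sub hab, h, sub_self]
  rw [ZMod.natCast_eq_zero_iff] at h1
  obtain ⟨t, ht⟩ := h1
  exact ⟨t, by omega⟩

end

/-- Row K9b. -/
theorem sp_diR : SpDiR := by
  intro M hM S _ x h
  have hB := basic S
  have h10 : M 1 0 = M 0 1 := M.symmetric 1 0
  haveI : NeZero (M 0 1) := ⟨by omega⟩
  have hmm : ((M 0 1 : ℕ) : ZMod (M 0 1)) = 0 := ZMod.natCast_self _
  refine ⟨?_, by omega, ?_, ?_, ?_, ?_, ?_, ?_⟩
  · -- rk_a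
    exact Fin.forall_fin_two.2 ⟨h.rk_x 0, h.rk_x 1⟩
  · -- per
    intro s
    rcases h.all s with rfl | rfl | ⟨i, rfl⟩
    · exact Function.iterate_fixed hB.tau_bo _
    · exact Function.iterate_fixed hB.tau_top _
    · rw [dr_tau h, hmm, mul_zero, add_zero]
  · -- orb
    intro r hr
    rcases h.all r with rfl | rfl | ⟨i, rfl⟩
    · rw [hB.rk_bo] at hr
      omega
    · rw [h.rk_top] at hr
      omega
    · have hi : ((i.val : ℕ) : ZMod (M 0 1)) = i := ZMod.natCast_zmod_val i
      rcases Nat.even_or_odd' i.val with ⟨k, hk | hk⟩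
      · refine ⟨k, 0, ?_⟩
        show x i = tau^[k] (x 0)
        rw [dr_tau h]
        congr 1
        rw [← hi, hk]
        push_cast
        ring
      · refine ⟨k, 1, ?_⟩
        show x i = tau^[k] (x 1)
        rw [dr_tau h]
        congr 1
        rw [← hi, hk]
        push_cast
        ring
  · -- top
    refine ⟨le_top, ?_⟩
    have e : dv (![x 0, x 1] 0) ⊤ = x 1 := by
      show dv (x 0) ⊤ = x 1
      rw [hB.dv_top, h.K_x, zero_add]
    rw [e]
    refine ⟨le_refl _, ?_⟩
    exact hB.dv_self (x 1)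
  · -- dih
    have hK : ∀ i, (fun y => dv y (⊤ : S))^[M 0 1] (x i) = x i := by
      intro i
      rw [dr_K h, hmm, add_zero]
    have h01 : dv (x 0) (⊤ : S) = x 1 := by rw [hB.dv_top, h.K_x, zero_add]
    refine Fin.forall_fin_two.2 ⟨Fin.forall_fin_two.2 ⟨fun hn => absurd rfl hn, fun _ => ?_⟩,
      Fin.forall_fin_two.2 ⟨fun _ => ?_, fun hn => absurd rfl hn⟩⟩
    · exact ⟨⊤, le_top, le_top, Or.inl h01, hK 0⟩
    · refine ⟨⊤, le_top, le_top, Or.inr h01, ?_⟩
      rw [h10]
      exact hK 1
  · -- P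
    have key : ∀ (i j k : ℕ), tau^[k] (x (j : ZMod (M 0 1))) = x (i : ZMod (M 0 1)) → i ≤ j + 2 * k →
        ∃ t, j + 2 * k = i + (M 0 1) * t := by
      intro i j k hE hle
      rw [dr_tau h] at hE
      have h1 := h.inj hE
      refine dr_cast ?_ hle
      rw [← h1]
      push_cast
      ring
    refine Fin.forall_fin_two.2 ⟨Fin.forall_fin_two.2 ⟨?_, ?_⟩, Fin.forall_fin_two.2 ⟨?_, ?_⟩⟩
    · -- i = 0, j = 0
      intro k hk hkm hE
      obtain ⟨t, ht⟩ := key 0 0 k (by simpa using hE) (by omega)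
      rcases t with _ | _ | _ | t
      · omega
      · exact (dr_even M (show 2 * k = M 0 1 by omega)).1
      · have e : k = M 0 1 := by omega
        rw [e]
        exact (dr_cen M).1
      · exfalso
        nlinarith
    · -- i = 0, j = 1
      intro k hk hkm hE
      obtain ⟨t, ht⟩ := key 0 1 k (by simpa using hE) (by omega)
      rcases t with _ | _ | _ | t
      · omega
      · exact (dr_odd M (show 2 * k + 1 = M 0 1 by omega)).1
      · omega
      · exfalso
        nlinarith
    · -- i = 1, j = 0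
      intro k hk hkm hE
      obtain ⟨t, ht⟩ := key 1 0 k (by simpa using hE) (by omega)
      rcases t with _ | _ | t
      · omega
      · obtain ⟨k', rfl⟩ : ∃ k', k = k' + 1 := ⟨k - 1, by omega⟩
        exact (dr_odd M (show 2 * k' + 1 = M 0 1 by omega)).2
      · exfalso
        nlinarith
    · -- i = 1, j = 1
      intro k hk hkm hE
      obtain ⟨t, ht⟩ := key 1 1 k (by simpa using hE) (by omega)
      rcases t with _ | _ | _ | t
      · omega
      · exact (dr_even M (show 2 * k = M 0 1 by omega)).2.1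
      · have e : k = M 0 1 := by omega
        rw [e]
        exact (dr_cen M).2
      · exfalso
        nlinarith
  · -- R
    have hle : ∀ (j : ZMod (M 0 1)) (r : S), NC.rk r = 1 → r ≤ x j → r = x j := by
      intro j r hr hrj
      by_contra hne
      have h1 := hB.rk_lt (lt_of_le_of_ne hrj hne)
      rw [h.rk_x] at h1
      omega
    refine Fin.forall_fin_two.2 ⟨?_, ?_⟩
    · -- i = 0
      intro r hr hrK
      have hr1 : r = x 1 := by
        refine hle 1 r hr ?_
        have h1 : K (x 0) = x 1 := by rw [h.K_x, zero_add]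
        rw [← h1]
        exact hrK
      subst hr1
      have hmul : IsMul (x 0) (x 1) (⊤ : S) := ⟨le_top, by rw [hB.dv_top, h.K_x, zero_add]⟩
      rcases Nat.even_or_odd' (M 0 1) with ⟨k, hk | hk⟩
      · obtain ⟨c, rfl⟩ : ∃ c, k = c + 1 := ⟨k - 1, by omega⟩
        refine ⟨1, 1, 0, c, ⊤, rfl, hmul, ⟨le_top, ?_⟩, ?_⟩
        · show dv (tau^[c] (x 1)) ⊤ = x 0
          rw [hB.dv_top, dr_tau h, h.K_x]
          congr 1
          have h1 : ((M 0 1 : ℕ) : ZMod (M 0 1)) = ((2 * (c + 1) : ℕ) : ZMod (M 0 1)) := by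
            rw [← hk]
          rw [hmm] at h1
          push_cast at h1
          rw [h1]
          ring
        · obtain ⟨_, _, h3⟩ := dr_even M hk.symm
          have e1 : wd M [0, 1] ^ c * ge M 0 * wd M [0, 1] ^ 0 * ge M 1 =
              wd M [0, 1] ^ (c + 1) := by
            rw [pow_zero, mul_one, mul_assoc, ← dr_wd, ← pow_succ]
          have e2 : ge M 1 * wd M [0, 1] ^ c * ge M 0 * wd M [0, 1] ^ 0 =
              (ge M 1 * ge M 0) ^ (c + 1) := by
            rw [pow_zero, mul_one, dr_wd, ← mul_pow_mul, mul_assoc, ← pow_succ]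
          exact e1.trans (h3.trans e2.symm)
      · refine ⟨1, 0, 0, k, ⊤, rfl, hmul, ⟨le_top, ?_⟩, ?_⟩
        · show dv (tau^[k] (x 0)) ⊤ = x 0
          rw [hB.dv_top, dr_tau h, h.K_x]
          congr 1
          have h1 : ((M 0 1 : ℕ) : ZMod (M 0 1)) = ((2 * k + 1 : ℕ) : ZMod (M 0 1)) := by
            rw [← hk]
          rw [hmm] at h1
          push_cast at h1
          linear_combination (-1 : ZMod (M 0 1)) * h1
        · obtain ⟨h1, _⟩ := dr_odd M hk.symm
          have e1 : wd M [0, 1] ^ k * ge M 0 * wd M [0, 1] ^ 0 * ge M 1 =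
              wd M [0, 1] ^ (k + 1) := by
            rw [pow_zero, mul_one, mul_assoc, ← dr_wd, ← pow_succ]
          have e2 : ge M 0 * wd M [0, 1] ^ k * ge M 0 * wd M [0, 1] ^ 0 =
              wd M [0, 1] ^ (k + 1) := by
            rw [pow_zero, mul_one, mul_assoc, ← h1, ← mul_assoc, ← dr_wd, ← pow_succ']
          exact e1.trans e2.symm
    · -- i = 1
      intro r hr hrK
      have hr1 : r = x 2 := by
        refine hle 2 r hr ?_
        have h1 : K (x 1) = x 2 := by rw [h.K_x, one_add_one_eq_two]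
        rw [← h1]
        exact hrK
      subst hr1
      refine ⟨0, 0, M 0 1 - 1, 0, ⊤, ?_, ⟨le_top, ?_⟩, ⟨le_top, ?_⟩, ?_⟩
      · show tau^[M 0 1 - 1] (x 2) = x 0
        rw [dr_tau h, Nat.cast_sub (by omega), hmm]
        congr 1
        push_cast
        ring
      · show dv (x 1) ⊤ = x 2
        rw [hB.dv_top, h.K_x, one_add_one_eq_two]
      · show dv (x 0) ⊤ = x 1
        rw [hB.dv_top, h.K_x, zero_add]
      · have h1 := (dr_cen M).1
        have e : M 0 1 = (M 0 1 - 1) + 1 := by omega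
        have h2 : wd M [0, 1] ^ (M 0 1) = wd M [0, 1] * wd M [0, 1] ^ (M 0 1 - 1) := by
          rw [← pow_succ', ← e]
        rw [h2] at h1
        rw [pow_zero, mul_one, one_mul]
        rw [dr_wd] at h1 ⊢
        apply mul_left_cancel (a := ge M 0)
        rw [h1]
        simp only [mul_assoc]

end Pool.Agent.H54.RK
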