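import Pool.Agent.H54.RK.Spec

/-!
# Project RK (MP_35eb49): the final assembly
-/

set_option autoImplicit false

namespace Pool.Agent.H54.RK

open Pool.Agent.H54.RF

theorem sp_fin4 : SpFin := by
  intro hTriv hRed hIso hPos hC2 hC3 hC4 hDi hMach n hn M hM
  obtain ⟨mA3, mB3, mH3, mA4, mB4, mD4, mF4, mH4⟩ := hMach
  by_cases hI : Irr M
  · have hP : PD M := hPos n M hM hI
    have h5 : n = 0 ∨ n = 1 ∨ n = 2 ∨ n = 3 ∨ n = 4 := by omega
    rcases h5 with rfl | rfl | rfl | rfl | rfl
    · exact hTriv.1 M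
    · exact hTriv.2 M
    · exact hDi M (hC2 M hI hP)
    · rcases hC3 M hI hP with h | h | h
      · exact hIso 3 M _ h mA3
      · exact hIso 3 M _ h mB3
      · exact hIso 3 M _ h mH3
    · rcases hC4 M hI hP with h | h | h | h | h
      · exact hIso 4 M _ h mA4
      · exact hIso 4 M _ h mB4
      · exact hIso 4 M _ h mD4
      · exact hIso 4 M _ h mF4
      · exact hIso 4 M _ h mH4
  · exact hRed n M hI

end Pool.Agent.H54.RK
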