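import Pool.Agent.H54.RK.Spec

/-!
# Project RK (MP_35eb49): the numbering of the generators
-/

set_option autoImplicit false

namespace Pool.Agent.H54.RK

open Pool.Agent.H54.RF

private theorem iso_alt {n : ℕ} (e : Fin n → Fin n) : ∀ (m : ℕ) (i j : Fin n),
    (CoxeterSystem.alternatingWord i j m).map e = CoxeterSystem.alternatingWord (e i) (e j) m := by
  intro m
  induction m with
  | zero => intro i j; rfl
  | succ m ih =>
    intro i j
    rw [CoxeterSystem.alternatingWord_succ, CoxeterSystem.alternatingWord_succ,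
      List.concat_eq_append, List.concat_eq_append, List.map_append, ih]
    rfl

private theorem iso_rel {n : ℕ} {M M' : CoxeterMatrix (Fin n)} (e : Fin n → Fin n)
    (h : ∀ i j, M' (e i) (e j) = M i j) :
    ∀ r ∈ Rel M, FreeGroup.lift (fun i => (PresentedGroup.of (e i) : Art M')) r = 1 := by
  rintro r ⟨⟨i, j⟩, rfl⟩
  have key : ∀ l : List (Fin n),
      FreeGroup.lift (fun i => (PresentedGroup.of (e i) : Art M')) (l.map FreeGroup.of).prod =
        PresentedGroup.mk (Rel M') ((l.map e).map FreeGroup.of).prod := by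
    intro l
    rw [map_list_prod, map_list_prod, List.map_map, List.map_map, List.map_map]
    congr 1
  show FreeGroup.lift (fun i => (PresentedGroup.of (e i) : Art M'))
    (((CoxeterSystem.alternatingWord i j (M i j)).map FreeGroup.of).prod *
      (((CoxeterSystem.alternatingWord j i (M i j)).map FreeGroup.of).prod)⁻¹) = 1
  rw [map_mul, map_inv, key, key, iso_alt, iso_alt, ← h i j, ← map_inv, ← map_mul]
  exact PresentedGroup.one_of_mem ⟨(e i, e j), rfl⟩

private noncomputable def isoHom {n : ℕ} {M M' : CoxeterMatrix (Fin n)} (e : Fin n → Fin n)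
    (h : ∀ i j, M' (e i) (e j) = M i j) : Art M →* Art M' :=
  PresentedGroup.toGroup (iso_rel e h)

private theorem isoHom_of {n : ℕ} {M M' : CoxeterMatrix (Fin n)} (e : Fin n → Fin n)
    (h : ∀ i j, M' (e i) (e j) = M i j) (i : Fin n) :
    isoHom e h (PresentedGroup.of i) = PresentedGroup.of (e i) :=
  PresentedGroup.toGroup.of _

private theorem iso_symm {n : ℕ} {M M' : CoxeterMatrix (Fin n)} (e : Fin n ≃ Fin n)
    (h : ∀ i j, M' (e i) (e j) = M i j) (i j : Fin n) : M (e.symm i) (e.symm j) = M' i j := by
  rw [← h, e.apply_symm_apply, e.apply_symm_apply]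

private noncomputable def isoEquiv {n : ℕ} {M M' : CoxeterMatrix (Fin n)} (e : Fin n ≃ Fin n)
    (h : ∀ i j, M' (e i) (e j) = M i j) : Art M ≃* Art M' :=
  MonoidHom.toMulEquiv (isoHom e h)
    (isoHom e.symm (iso_symm e h))
    (PresentedGroup.ext fun x => by
      rw [MonoidHom.comp_apply, isoHom_of, isoHom_of, e.symm_apply_apply]; rfl)
    (PresentedGroup.ext fun x => by
      rw [MonoidHom.comp_apply, isoHom_of, isoHom_of, e.apply_symm_apply]; rfl)

private theorem isoEquiv_symm_of {n : ℕ} {M M' : CoxeterMatrix (Fin n)} (e : Fin n ≃ Fin n)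
    (h : ∀ i j, M' (e i) (e j) = M i j) (i : Fin n) :
    (isoEquiv e h).symm (PresentedGroup.of i) = PresentedGroup.of (e.symm i) :=
  isoHom_of (M := M') (M' := M) e.symm (iso_symm e h) i

private theorem iso_map_conj {G H : Type*} [Group G] [Group H] (f : G →* H) (a : G)
    (P : Subgroup G) : (P.map (MulAut.conj a).toMonoidHom).map f =
      (P.map f).map (MulAut.conj (f a)).toMonoidHom := by
  rw [Subgroup.map_map, Subgroup.map_map]
  congr 1
  ext x
  simp [MulAut.conj_apply]

private theorem iso_center {G H : Type*} [Group G] [Group H] (f : G ≃* H) :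
    (Subgroup.center G).map f.toMonoidHom = Subgroup.center H := by
  ext y
  rw [Subgroup.mem_map, Subgroup.mem_center_iff]
  constructor
  · rintro ⟨x, hx, rfl⟩ z
    obtain ⟨z, rfl⟩ := f.surjective z
    rw [Subgroup.mem_center_iff] at hx
    show f z * f x = f x * f z
    rw [← map_mul, hx, map_mul]
  · intro hy
    refine ⟨f.symm y, ?_, f.apply_symm_apply y⟩
    rw [Subgroup.mem_center_iff]
    intro z
    apply f.injective
    rw [map_mul, map_mul, f.apply_symm_apply, hy]

private theorem iso_centralizer {G H : Type*} [Group G] [Group H] (f : G ≃* H) (g : G) :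
    (Subgroup.centralizer {g}).map f.toMonoidHom = Subgroup.centralizer {f g} := by
  ext y
  rw [Subgroup.mem_map, Subgroup.mem_centralizer_singleton_iff]
  constructor
  · rintro ⟨x, hx, rfl⟩
    rw [Subgroup.mem_centralizer_singleton_iff] at hx
    show f x * f g = f g * f x
    rw [← map_mul, hx, map_mul]
  · intro hy
    refine ⟨f.symm y, ?_, f.apply_symm_apply y⟩
    rw [Subgroup.mem_centralizer_singleton_iff]
    apply f.injective
    rw [map_mul, map_mul, f.apply_symm_apply, hy]

theorem sp_iso : SpIso := by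
  rintro n M M' ⟨e, h⟩ hM' g hg
  set φ : Art M ≃* Art M' := isoEquiv e h with hφ
  have hφs : ∀ i : Fin n, φ.symm (PresentedGroup.of i) = PresentedGroup.of (e.symm i) :=
    fun i => isoEquiv_symm_of e h i
  have main := hM' (φ g) (by
    rintro P ⟨X, a, hP⟩ hPt hPb k hk hc
    refine hg (P.map φ.symm.toMonoidHom) ⟨e.symm '' X, φ.symm a, ?_⟩ ?_ ?_ k hk ?_
    · rw [hP, iso_map_conj, MonoidHom.map_closure]
      congr 2
      ext y
      simp only [Set.mem_image]
      constructor
      · rintro ⟨x, ⟨i, hi, rfl⟩, rfl⟩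
        exact ⟨e.symm i, ⟨i, hi, rfl⟩, (hφs i).symm⟩
      · rintro ⟨i, ⟨j, hj, rfl⟩, rfl⟩
        exact ⟨_, ⟨j, hj, rfl⟩, hφs j⟩
    · intro ht
      apply hPt
      apply Subgroup.map_injective (f := φ.symm.toMonoidHom) φ.symm.injective
      rw [ht]
      exact (Subgroup.map_top_of_surjective _ φ.symm.surjective).symm
    · intro hb
      apply hPb
      apply Subgroup.map_injective (f := φ.symm.toMonoidHom) φ.symm.injective
      rw [hb, Subgroup.map_bot]
    · have h1 := iso_map_conj φ.symm.toMonoidHom (φ g ^ k) P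
      rw [hc] at h1
      have h2 : φ.symm.toMonoidHom (φ g ^ k) = g ^ k := by
        show φ.symm (φ g ^ k) = g ^ k
        rw [map_pow, φ.symm_apply_apply]
      rw [h2] at h1
      exact h1.symm)
  rw [← iso_centralizer φ g, ← iso_center φ] at main
  have h3 : Subgroup.zpowers (φ g) = (Subgroup.zpowers g).map φ.toMonoidHom :=
    (MonoidHom.map_zpowers φ.toMonoidHom g).symm
  rw [h3, ← Subgroup.map_sup,
    Subgroup.relIndex_map_map_of_injective (f := φ.toMonoidHom) _ _ φ.injective] at main
  exact main

end Pool.Agent.H54.RK
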