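import Pool.Agent.H54.RK.Spec

/-!
# Project RK (MP_35eb49), row K5: finite irreducible Coxeter groups have a positive definite form
-/

set_option autoImplicit false

namespace Pool.Agent.H54.RK

open Pool.Agent.H54.RF

section

variable {n : ℕ} {W : Type} [Group W] [Fintype W]

/-- the average of the standard scalar product -/
noncomputable def k5B (ρ : W →* Module.End ℝ (Fin n → ℝ)) :
    (Fin n → ℝ) →ₗ[ℝ] (Fin n → ℝ) →ₗ[ℝ] ℝ :=
  LinearMap.mk₂ ℝ (fun x y => ∑ w : W, ∑ k, ρ w x k * ρ w y k)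
    (fun x x' y => by
      rw [← Finset.sum_add_distrib]
      refine Finset.sum_congr rfl fun w _ => ?_
      rw [← Finset.sum_add_distrib]
      refine Finset.sum_congr rfl fun k _ => ?_
      rw [map_add, Pi.add_apply, add_mul])
    (fun c x y => by
      rw [smul_eq_mul, Finset.mul_sum]
      refine Finset.sum_congr rfl fun w _ => ?_
      rw [Finset.mul_sum]
      refine Finset.sum_congr rfl fun k _ => ?_
      rw [map_smul, Pi.smul_apply, smul_eq_mul, mul_assoc])
    (fun x y y' => by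
      rw [← Finset.sum_add_distrib]
      refine Finset.sum_congr rfl fun w _ => ?_
      rw [← Finset.sum_add_distrib]
      refine Finset.sum_congr rfl fun k _ => ?_
      rw [map_add, Pi.add_apply, mul_add])
    (fun c x y => by
      rw [smul_eq_mul, Finset.mul_sum]
      refine Finset.sum_congr rfl fun w _ => ?_
      rw [Finset.mul_sum]
      refine Finset.sum_congr rfl fun k _ => ?_
      rw [map_smul, Pi.smul_apply, smul_eq_mul, mul_left_comm])

theorem k5_apply (ρ : W →* Module.End ℝ (Fin n → ℝ)) (x y : Fin n → ℝ) :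
    k5B ρ x y = ∑ w : W, ∑ k, ρ w x k * ρ w y k := rfl

theorem k5_symm (ρ : W →* Module.End ℝ (Fin n → ℝ)) (x y : Fin n → ℝ) :
    k5B ρ x y = k5B ρ y x := by
  rw [k5_apply, k5_apply]
  exact Finset.sum_congr rfl fun w _ => Finset.sum_congr rfl fun k _ => mul_comm _ _

theorem k5_inv (ρ : W →* Module.End ℝ (Fin n → ℝ)) (v : W) (x y : Fin n → ℝ) :
    k5B ρ (ρ v x) (ρ v y) = k5B ρ x y := by
  rw [k5_apply, k5_apply]
  refine Fintype.sum_equiv (Equiv.mulRight v) _ _ fun w => ?_
  show ∑ k, ρ w (ρ v x) k * ρ w (ρ v y) k = ∑ k, ρ (w * v) x k * ρ (w * v) y k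
  rw [map_mul]
  rfl

theorem k5_pos (ρ : W →* Module.End ℝ (Fin n → ℝ)) (x : Fin n → ℝ) (hx : x ≠ 0) :
    0 < k5B ρ x x := by
  rw [k5_apply]
  refine Finset.sum_pos' (fun w _ => Finset.sum_nonneg fun k _ => mul_self_nonneg _)
    ⟨1, Finset.mem_univ _, ?_⟩
  rw [map_one]
  obtain ⟨k, hk⟩ := Function.ne_iff.1 hx
  exact Finset.sum_pos' (fun k _ => mul_self_nonneg _)
    ⟨k, Finset.mem_univ _, mul_self_pos.2 hk⟩

end

theorem k5_cos (m : ℕ) (hm : m ≠ 2) : Real.cos (Real.pi / (m : ℝ)) ≠ 0 := by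
  obtain h | h | h : m = 0 ∨ m = 1 ∨ 3 ≤ m := by omega
  · subst h
    simp
  · subst h
    simp
  · have h1 : (3 : ℝ) ≤ m := by exact_mod_cast h
    have h2 : 0 < Real.pi / (m : ℝ) := div_pos Real.pi_pos (by linarith)
    have h3 : Real.pi / (m : ℝ) < Real.pi / 2 :=
      div_lt_div_of_pos_left Real.pi_pos two_pos (by linarith)
    exact (Real.cos_pos_of_mem_Ioo ⟨by linarith [Real.pi_pos], h3⟩).ne'

theorem sp_pos (h : SpRep) : SpPos := by
  intro n M hf hI x hx
  obtain ⟨ρ, hρ⟩ := h n M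
  have hft := Fintype.ofFinite M.Group
  have hbe : ∀ i j, ∑ k, bl M i k * (Pi.single j 1 : Fin n → ℝ) k = bl M i j := by
    intro i j
    simp [Pi.single_apply]
  have hii : ∀ i, bl M i i = 1 := by
    intro i
    unfold bl
    rw [M.diagonal]
    simp
  have hs : ∀ i, ρ (M.simple i) (Pi.single i 1) = -(Pi.single i 1 : Fin n → ℝ) := by
    intro i
    rw [hρ, hbe, hii, mul_one, two_smul]
    abel
  have h0 : ∀ (i : Fin n) (y : Fin n → ℝ), ∑ j, bl M i j * y j = 0 →
      k5B ρ (Pi.single i 1) y = 0 := by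
    intro i y hy
    have h1 := k5_inv ρ (M.simple i) (Pi.single i 1) y
    rw [hs, hρ i y, hy, mul_zero, zero_smul, sub_zero, map_neg, LinearMap.neg_apply] at h1
    linarith
  have key : ∀ (i : Fin n) (y : Fin n → ℝ), k5B ρ (Pi.single i 1) y =
      (∑ j, bl M i j * y j) * k5B ρ (Pi.single i 1) (Pi.single i 1) := by
    intro i y
    have h1 := h0 i (y - (∑ j, bl M i j * y j) • (Pi.single i 1 : Fin n → ℝ)) (by
      have h2 : ∑ j, bl M i j * (y - (∑ j, bl M i j * y j) • (Pi.single i 1 : Fin n → ℝ)) j =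
          ∑ j, bl M i j * y j -
            (∑ j, bl M i j * y j) * ∑ j, bl M i j * (Pi.single i 1 : Fin n → ℝ) j := by
        rw [Finset.mul_sum, ← Finset.sum_sub_distrib]
        refine Finset.sum_congr rfl fun j _ => ?_
        rw [Pi.sub_apply, Pi.smul_apply, smul_eq_mul]
        ring
      rw [h2, hbe, hii, mul_one, sub_self])
    rw [map_sub, map_smul, smul_eq_mul, sub_eq_zero] at h1
    exact h1
  have hsym : ∀ i j, bl M i j = bl M j i := by
    intro i j
    unfold bl
    rw [M.symmetric i j]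
  have hc1 : ∀ i j, M i j ≠ 2 → k5B ρ (Pi.single i 1) (Pi.single i 1) =
      k5B ρ (Pi.single j 1) (Pi.single j 1) := by
    intro i j hij
    have h1 := key i (Pi.single j 1)
    have h2 := key j (Pi.single i 1)
    rw [hbe] at h1 h2
    rw [k5_symm, h2, hsym j i] at h1
    have h3 : bl M i j ≠ 0 := neg_ne_zero.2 (k5_cos _ hij)
    exact (mul_left_cancel₀ h3 h1).symm
  obtain ⟨i0, hi0⟩ := Function.ne_iff.1 hx
  have hc : ∀ i, k5B ρ (Pi.single i 1) (Pi.single i 1) =
      k5B ρ (Pi.single i0 1) (Pi.single i0 1) := by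
    by_contra hne
    push Not at hne
    obtain ⟨j0, hj0⟩ := hne
    obtain ⟨i, hi, j, hj, hij⟩ := hI {i | k5B ρ (Pi.single i 1) (Pi.single i 1) =
      k5B ρ (Pi.single i0 1) (Pi.single i0 1)} ⟨i0, rfl⟩ ⟨j0, hj0⟩
    exact hj ((hc1 i j hij).symm.trans hi)
  have hpos0 : 0 < k5B ρ (Pi.single i0 1) (Pi.single i0 1) := by
    refine k5_pos ρ _ fun h1 => ?_
    have h2 := congrFun h1 i0
    rw [Pi.single_eq_same, Pi.zero_apply] at h2
    exact one_ne_zero h2
  have hx' : x = ∑ i, x i • (Pi.single i 1 : Fin n → ℝ) := by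
    funext k
    rw [Finset.sum_apply]
    simp [Pi.single_apply]
  have hexp : k5B ρ x x = ∑ i, x i * k5B ρ (Pi.single i 1) x := by
    calc k5B ρ x x = k5B ρ (∑ i, x i • (Pi.single i 1 : Fin n → ℝ)) x := by rw [← hx']
      _ = ∑ i, x i * k5B ρ (Pi.single i 1) x := by
        rw [map_sum, LinearMap.sum_apply]
        refine Finset.sum_congr rfl fun i _ => ?_
        rw [map_smul, LinearMap.smul_apply, smul_eq_mul]
  have hfin : k5B ρ x x = (∑ i, ∑ j, x i * x j * bl M i j) *
      k5B ρ (Pi.single i0 1) (Pi.single i0 1) := by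
    rw [hexp, Finset.sum_mul]
    refine Finset.sum_congr rfl fun i _ => ?_
    rw [key, hc i, Finset.sum_mul, Finset.mul_sum, Finset.sum_mul]
    refine Finset.sum_congr rfl fun j _ => ?_
    ring
  have h5 := k5_pos ρ x hx
  rw [hfin] at h5
  exact (pos_iff_pos_of_mul_pos h5).2 hpos0

end Pool.Agent.H54.RK
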