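import Pool.Agent.H54.RK.Spec

/-!
# Project RK (MP_35eb49), row K2: reducible types
-/

set_option autoImplicit false

namespace Pool.Agent.H54.RK

open Pool.Agent.H54.RF

section

variable {n : ℕ} {M : CoxeterMatrix (Fin n)}

private theorem red_alt {G : Type} [CommGroup G] (f : Fin n → G) (m : ℕ) :
    ∀ i j : Fin n, f i = f j →
      ((CoxeterSystem.alternatingWord i j m).map f).prod = f i ^ m := by
  induction m with
  | zero => intro i j _; simp [CoxeterSystem.alternatingWord]
  | succ m ih =>
    intro i j hij
    rw [CoxeterSystem.alternatingWord_succ, List.concat_eq_append, List.map_append,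
      List.prod_append, ih j i hij.symm, pow_succ, ← hij]
    simp [hij]

private theorem red_two {G : Type} [Group G] (f : Fin n → G) (i j : Fin n) :
    ((CoxeterSystem.alternatingWord i j 2).map f).prod = f i * f j := by
  simp [CoxeterSystem.alternatingWord]

private theorem red_lift {G : Type} [Group G] (f : Fin n → G) (l : List (Fin n)) :
    FreeGroup.lift f (l.map FreeGroup.of).prod = (l.map f).prod := by
  induction l with
  | nil => simp
  | cons a l ih => simp [ih]

private theorem red_rel {G : Type} [CommGroup G] (f : Fin n → G)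
    (h : ∀ i j, f i = f j ∨ M i j = 2) : ∀ r ∈ Rel M, FreeGroup.lift f r = 1 := by
  rintro _ ⟨⟨i, j⟩, rfl⟩
  simp only [map_mul, map_inv, red_lift]
  rcases h i j with h1 | h1
  · rw [red_alt f _ i j h1, red_alt f _ j i h1.symm, h1, mul_inv_cancel]
  · rw [h1, red_two, red_two, mul_comm (f i), mul_inv_cancel]

private theorem red_comm {i j : Fin n} (h : M i j = 2) :
    (PresentedGroup.of i : Art M) * PresentedGroup.of j = PresentedGroup.of j * PresentedGroup.of i := by
  have h1 : (PresentedGroup.mk (Rel M)) (((CoxeterSystem.alternatingWord i j (M i j)).map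
      FreeGroup.of).prod * (((CoxeterSystem.alternatingWord j i (M i j)).map
      FreeGroup.of).prod)⁻¹) = 1 := by
    rw [PresentedGroup.one_of_mem]
    exact ⟨(i, j), rfl⟩
  rw [h, red_two, red_two, map_mul, map_inv, mul_inv_eq_one, map_mul, map_mul] at h1
  exact h1

theorem sp_red : SpRed := by
  intro n M hI g hg
  exfalso
  unfold Irr at hI
  push Not at hI
  obtain ⟨X, ⟨i0, hi0⟩, ⟨j0, hj0⟩, hX⟩ := hI
  have hX' : ∀ j ∉ X, ∀ i ∈ X, M j i = 2 := fun j hj i hi => by
    rw [M.symmetric]; exact hX i hi j hj
  set P : Subgroup (Art M) := Subgroup.closure (PresentedGroup.of '' X) with hP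
  have hN : Subgroup.normalizer (P : Set (Art M)) = ⊤ := by
    rw [eq_top_iff, ← PresentedGroup.closure_range_of, Subgroup.closure_le]
    rintro _ ⟨j, rfl⟩
    by_cases hj : j ∈ X
    · exact Subgroup.le_normalizer (Subgroup.subset_closure ⟨j, hj, rfl⟩)
    · have hc : ∀ x ∈ P, (PresentedGroup.of j : Art M) * x = x * PresentedGroup.of j := by
        intro x hx
        rw [hP] at hx
        induction hx using Subgroup.closure_induction with
        | mem x hx =>
          obtain ⟨i, hi, rfl⟩ := hx
          exact red_comm (hX' j hj i hi)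
        | one => simp
        | mul x y _ _ hx hy => rw [← mul_assoc, hx, mul_assoc, hy, mul_assoc]
        | inv x _ hx =>
          rw [eq_comm, inv_mul_eq_iff_eq_mul, ← mul_assoc, ← hx, mul_inv_cancel_right]
      rw [SetLike.mem_coe, Subgroup.mem_normalizer_iff]
      intro x
      constructor
      · intro hx
        rw [hc x hx, mul_inv_cancel_right]
        exact hx
      · intro hx
        have h1 := hc _ hx
        have h2 : x = PresentedGroup.of j * x * (PresentedGroup.of j)⁻¹ := by
          have h3 : (PresentedGroup.of j : Art M) * (PresentedGroup.of j * x * (PresentedGroup.of j)⁻¹) =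
            PresentedGroup.of j * x := by rw [h1]; group
          exact (mul_left_cancel h3).symm
        rw [h2]
        exact hx
  have hPn : P.Normal := Subgroup.normalizer_eq_top_iff.mp hN
  refine hg P ⟨X, 1, ?_⟩ ?_ ?_ 1 one_pos ?_
  · rw [map_one]
    ext x
    simp [hP]
  · intro hT
    have hm : PresentedGroup.of j0 ∈ P := by rw [hT]; exact Subgroup.mem_top _
    classical
    let f : Fin n → Multiplicative ℤ := fun i => if i ∈ X then 1 else Multiplicative.ofAdd 1
    have hf : ∀ i j, f i = f j ∨ M i j = 2 := by
      intro i j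
      by_cases hi : i ∈ X
      · by_cases hj : j ∈ X
        · left; simp [f, hi, hj]
        · right; exact hX i hi j hj
      · by_cases hj : j ∈ X
        · right; exact hX' i hi j hj
        · left; simp [f, hi, hj]
    let φ : Art M →* Multiplicative ℤ := PresentedGroup.toGroup (red_rel f hf)
    have h1 : P ≤ φ.ker := by
      rw [hP, Subgroup.closure_le]
      rintro _ ⟨i, hi, rfl⟩
      rw [SetLike.mem_coe, MonoidHom.mem_ker]
      rw [PresentedGroup.toGroup.of]
      simp [f, hi]
    have h2 := h1 hm
    rw [MonoidHom.mem_ker, PresentedGroup.toGroup.of] at h2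
    simp only [f] at h2
    rw [if_neg hj0] at h2
    exact absurd h2 (by decide)
  · intro hB
    have hm : PresentedGroup.of i0 ∈ P := Subgroup.subset_closure ⟨i0, hi0, rfl⟩
    rw [hB, Subgroup.mem_bot] at hm
    let f : Fin n → Multiplicative ℤ := fun _ => Multiplicative.ofAdd 1
    have hf : ∀ i j, f i = f j ∨ M i j = 2 := fun _ _ => Or.inl rfl
    let φ : Art M →* Multiplicative ℤ := PresentedGroup.toGroup (red_rel f hf)
    have h1 : φ (PresentedGroup.of i0) = f i0 := PresentedGroup.toGroup.of _
    have h2 : f i0 = 1 := by rw [← h1, hm, map_one]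
    exact absurd h2 (by decide)
  · rw [pow_one]
    apply le_antisymm
    · rintro _ ⟨x, hx, rfl⟩
      exact hPn.conj_mem x hx g
    · intro x hx
      refine ⟨g⁻¹ * x * g, ?_, ?_⟩
      · have := hPn.conj_mem x hx g⁻¹
        rwa [inv_inv] at this
      · simp [mul_assoc]

end

end Pool.Agent.H54.RK
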