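import Pool.Agent.H54.RK.Spec

/-!
# Project RK (MP_35eb49), row K4: the geometric representation
-/

set_option autoImplicit false

namespace Pool.Agent.H54.RK

open Module Polynomial.Chebyshev

section

variable {n : ℕ} (M : CoxeterMatrix (Fin n))

private theorem rep_self (i : Fin n) : bl M i i = 1 := by
  unfold bl
  rw [M.diagonal i, Nat.cast_one, div_one, Real.cos_pi, neg_neg]

private theorem rep_symm (i j : Fin n) : bl M i j = bl M j i := by
  unfold bl
  rw [M.symmetric i j]

/-- the linear forms -/
private noncomputable def repF (i : Fin n) : Dual ℝ (Fin n → ℝ) :=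
  (2 : ℝ) • ∑ j, bl M i j • (LinearMap.proj j : (Fin n → ℝ) →ₗ[ℝ] ℝ)

private theorem repF_apply (i : Fin n) (x : Fin n → ℝ) :
    repF M i x = 2 * ∑ j, bl M i j * x j := by
  unfold repF
  simp [LinearMap.sum_apply]

private theorem repF_single (i j : Fin n) :
    repF M i (Pi.single j 1 : Fin n → ℝ) = 2 * bl M i j := by
  rw [repF_apply, Finset.sum_eq_single j]
  · rw [Pi.single_eq_same, mul_one]
  · intro k _ hk
    rw [Pi.single_eq_of_ne hk, mul_zero]
  · intro h
    exact absurd (Finset.mem_univ j) h

private theorem repF_self (i : Fin n) : repF M i (Pi.single i 1 : Fin n → ℝ) = 2 := by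
  rw [repF_single, rep_self, mul_one]

/-- the vanishing coefficients -/
private theorem rep_S {m : ℕ} (hm : 3 ≤ m) {t : ℝ} (ht : t = 2 * Real.cos (2 * Real.pi / m)) :
    (S ℝ (((m : ℤ) - 2) / 2)).eval t *
      ((S ℝ (((m : ℤ) - 1) / 2)).eval t + (S ℝ (((m : ℤ) - 3) / 2)).eval t) = 0 ∧
    (S ℝ (((m : ℤ) - 1) / 2)).eval t *
      ((S ℝ ((m : ℤ) / 2)).eval t + (S ℝ (((m : ℤ) - 2) / 2)).eval t) = 0 := by
  have hm0 : (0 : ℝ) < m := by exact_mod_cast (by omega : 0 < m)
  have hm3 : (3 : ℝ) ≤ m := by exact_mod_cast hm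
  have hs : Real.sin (2 * Real.pi / m) ≠ 0 := by
    refine (Real.sin_pos_of_pos_of_lt_pi (by positivity) ?_).ne'
    rw [div_lt_iff₀ hm0]
    nlinarith [Real.pi_pos]
  rcases Nat.even_or_odd' m with ⟨k, hk | hk⟩
  · have h1 : ((m : ℤ) - 2) / 2 = (k : ℤ) - 1 := by omega
    have h2 : ((m : ℤ) - 1) / 2 = (k : ℤ) - 1 := by omega
    have h3 : (S ℝ ((k : ℤ) - 1)).eval t = 0 := by
      have h4 := S_two_mul_real_cos (2 * Real.pi / m) ((k : ℤ) - 1)
      rw [← ht] at h4
      have h5 : (((k : ℤ) - 1 : ℤ) : ℝ) + 1 = k := by push_cast; ring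
      have h6 : (k : ℝ) * (2 * Real.pi / m) = Real.pi := by
        have h7 : (m : ℝ) = 2 * k := by rw [hk]; push_cast; ring
        have h8 : (k : ℝ) ≠ 0 := by
          intro h
          rw [h7, h] at hm0
          linarith
        rw [h7]
        field_simp
      rw [h5, h6, Real.sin_pi] at h4
      exact (mul_eq_zero.mp h4).resolve_right hs
    rw [h1, h2, h3]
    constructor <;> ring
  · have h1 : ((m : ℤ) - 2) / 2 = (k : ℤ) - 1 := by omega
    have h2 : ((m : ℤ) - 1) / 2 = (k : ℤ) := by omega
    have h2' : ((m : ℤ) - 3) / 2 = (k : ℤ) - 1 := by omega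
    have h2'' : (m : ℤ) / 2 = (k : ℤ) := by omega
    have h3 : (S ℝ (k : ℤ)).eval t + (S ℝ ((k : ℤ) - 1)).eval t = 0 := by
      have h4 := S_two_mul_real_cos (2 * Real.pi / m) ((k : ℤ) - 1)
      have h5 := S_two_mul_real_cos (2 * Real.pi / m) (k : ℤ)
      rw [← ht] at h4 h5
      have h6 : (((k : ℤ) - 1 : ℤ) : ℝ) + 1 = k := by push_cast; ring
      rw [h6] at h4
      have h7 : (((k : ℤ) : ℝ) + 1) * (2 * Real.pi / m) =
          2 * Real.pi - (k : ℝ) * (2 * Real.pi / m) := by
        have h8 : (m : ℝ) = 2 * k + 1 := by rw [hk]; push_cast; ring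
        have h9 : (2 * (k : ℝ) + 1) ≠ 0 := by positivity
        rw [h8]
        push_cast
        field_simp
        ring
      rw [h7, Real.sin_two_pi_sub] at h5
      have h10 : ((S ℝ (k : ℤ)).eval t + (S ℝ ((k : ℤ) - 1)).eval t) *
          Real.sin (2 * Real.pi / m) = 0 := by
        rw [add_mul, h4, h5]
        ring
      exact (mul_eq_zero.mp h10).resolve_right hs
    rw [h1, h2, h2', h2'', h3]
    constructor <;> ring

private theorem rep_lift : M.IsLiftable fun i : Fin n => reflection (repF_self M i) := by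
  intro i j
  by_cases hij : i = j
  · subst hij
    rw [M.diagonal i, pow_one]
    ext1 z
    exact involutive_reflection (repF_self M i) z
  · have h1 := M.off_diagonal i j hij
    rcases Nat.lt_or_ge (M i j) 3 with h | h
    · have h2 : M i j = 0 ∨ M i j = 2 := by omega
      rcases h2 with h2 | h2
      · rw [h2, pow_zero]
      · have h3 : bl M i j = 0 := by
          unfold bl
          rw [h2]
          norm_num
        have h4 : bl M j i = 0 := by rw [rep_symm, h3]
        rw [h2]
        ext1 z
        have key := reflection_mul_reflection_pow_apply (repF_self M i) (repF_self M j) 2 z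
        rw [repF_single, repF_single, h3, h4] at key
        rw [key]
        norm_num
        abel
    · set m := M i j with hm
      ext1 z
      have hf : repF M i (Pi.single j 1 : Fin n → ℝ) = -2 * Real.cos (Real.pi / m) := by
        rw [repF_single]
        unfold bl
        ring
      have hg : repF M j (Pi.single i 1 : Fin n → ℝ) = -2 * Real.cos (Real.pi / m) := by
        rw [repF_single, ← rep_symm]
        unfold bl
        ring
      have ht : repF M i (Pi.single j 1 : Fin n → ℝ) * repF M j (Pi.single i 1 : Fin n → ℝ) - 2 =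
          2 * Real.cos (2 * Real.pi / m) := by
        rw [hf, hg, show 2 * Real.pi / (m : ℝ) = 2 * (Real.pi / m) by ring, Real.cos_two_mul]
        ring
      have key := reflection_mul_reflection_pow_apply (repF_self M i) (repF_self M j) m z
      obtain ⟨k1, k2⟩ := rep_S h ht
      rw [k1, k2, zero_smul, zero_smul, add_zero, add_zero] at key
      exact key

end

/-- Row K4: the geometric representation. -/
theorem sp_rep : SpRep := by
  intro n M
  refine ⟨(LinearEquiv.automorphismGroup.toLinearMapMonoidHom).comp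
    (M.toCoxeterSystem.lift ⟨_, rep_lift M⟩), fun i x => ?_⟩
  have h1 : M.toCoxeterSystem.lift ⟨_, rep_lift M⟩ (M.simple i) = reflection (repF_self M i) :=
    M.toCoxeterSystem.lift_apply_simple (rep_lift M) i
  show (M.toCoxeterSystem.lift ⟨_, rep_lift M⟩ (M.simple i)) x = _
  rw [h1, reflection_apply, repF_apply]

end Pool.Agent.H54.RK
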