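import Pool.Agent.H54.RK.Triv
import Pool.Agent.H54.RK.Red
import Pool.Agent.H54.RK.Iso
import Pool.Agent.H54.RK.Rep
import Pool.Agent.H54.RK.Pos
import Pool.Agent.H54.RK.C3
import Pool.Agent.H54.RK.C4
import Pool.Agent.H54.RK.DiG
import Pool.Agent.H54.RK.DiR
import Pool.Agent.H54.RK.DiC
import Pool.Agent.H54.RK.Fin
import Pool.Agent.H54.RF.Cone
import Pool.Agent.H54.RG.Line3
import Pool.Agent.H54.RG.LineW
import Pool.Agent.H54.RG.MnA3
import Pool.Agent.H54.RG.MnB3
import Pool.Agent.H54.RG.MnH3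
import Pool.Agent.H54.RG.MnA4
import Pool.Agent.H54.RG.MnB4
import Pool.Agent.H54.RG.MnD4
import Pool.Agent.H54.RG.MnF4
import Pool.Agent.H54.RG.MnH4

/-!
# Project RK (MP_35eb49): all spherical types of rank at most four
-/

set_option autoImplicit false

namespace Pool.Agent.H54.RK

open Pool.Agent.H54.RF Pool.Agent.H54.RG

/-- The irreducible types of rank three and four. -/
theorem mach : SpMach :=
  ⟨conclA3 sp_line3 sp_cone, conclB3 sp_line3 sp_cone, conclH3 sp_line3 sp_cone,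
    conclA4 sp_lineW sp_cone, conclB4 sp_line3 sp_cone, conclD4 sp_line3 sp_cone,
    conclF4 sp_line3 sp_cone, conclH4 sp_line3 sp_cone⟩

/-- All spherical types of rank at most four. -/
theorem rank4 (n : ℕ) (hn : n ≤ 4) (M : CoxeterMatrix (Fin n)) (hM : Finite M.Group) : Con M :=
  sp_fin4 sp_triv sp_red sp_iso (sp_pos sp_rep) sp_c2 sp_c3 sp_c4
    (sp_di_of sp_diG sp_diR sp_diC) mach n hn M hM

end Pool.Agent.H54.RK
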