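import Pool.Agent.H54.RF.Art

/-!
# Project RK (MP_35eb49): spherical types of rank at most four

Statements of the rows: reduction of the question for all spherical types of rank at most four to
the irreducible ones, classification of these, dihedral types.
-/

set_option autoImplicit false

namespace Pool.Agent.H54.RK

open Pool.Agent.H54.RF

/-- The answer to the question for the type `M`. -/
def Con {n : ℕ} (M : CoxeterMatrix (Fin n)) : Prop := ∀ g : Art M,
  (∀ P : Subgroup (Art M),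
    (∃ (X : Set (Fin n)) (a : Art M),
      P = (Subgroup.closure (PresentedGroup.of '' X)).map (MulAut.conj a).toMonoidHom) →
    P ≠ ⊤ → P ≠ ⊥ → ∀ k : ℕ, 0 < k → P.map (MulAut.conj (g ^ k)).toMonoidHom ≠ P) →
  (Subgroup.zpowers g ⊔ Subgroup.center (Art M)).relIndex (Subgroup.centralizer {g}) ≠ 0

/-- Irreducible types. -/
def Irr {n : ℕ} (M : CoxeterMatrix (Fin n)) : Prop :=
  ∀ X : Set (Fin n), X.Nonempty → Xᶜ.Nonempty → ∃ i ∈ X, ∃ j ∉ X, M i j ≠ 2

/-- The same type up to the numbering. -/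
def Iso {n : ℕ} (M M' : CoxeterMatrix (Fin n)) : Prop :=
  ∃ e : Fin n ≃ Fin n, ∀ i j, M' (e i) (e j) = M i j

/-- The entries of the bilinear form. -/
noncomputable def bl {n : ℕ} (M : CoxeterMatrix (Fin n)) (i j : Fin n) : ℝ :=
  -Real.cos (Real.pi / (M i j : ℝ))

/-- The bilinear form is positive definite. -/
def PD {n : ℕ} (M : CoxeterMatrix (Fin n)) : Prop :=
  ∀ x : Fin n → ℝ, x ≠ 0 → 0 < ∑ i, ∑ j, x i * x j * bl M i j

/-- The type `A₃`. -/
def MA3 : CoxeterMatrix (Fin 3) where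
  M := !![1, 3, 2;
          3, 1, 3;
          2, 3, 1]
  isSymm := by decide
  diagonal := by decide
  off_diagonal := by decide

/-- The type `B₃`. -/
def MB3 : CoxeterMatrix (Fin 3) where
  M := !![1, 3, 2;
          3, 1, 4;
          2, 4, 1]
  isSymm := by decide
  diagonal := by decide
  off_diagonal := by decide

/-- The type `A₄`. -/
def MA4 : CoxeterMatrix (Fin 4) where
  M := !![1, 3, 2, 2;
          3, 1, 3, 2;
          2, 3, 1, 3;
          2, 2, 3, 1]
  isSymm := by decide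
  diagonal := by decide
  off_diagonal := by decide

/-- The type `B₄`. -/
def MB4 : CoxeterMatrix (Fin 4) where
  M := !![1, 3, 2, 2;
          3, 1, 3, 2;
          2, 3, 1, 4;
          2, 2, 4, 1]
  isSymm := by decide
  diagonal := by decide
  off_diagonal := by decide

/-- The type `D₄`. -/
def MD4' : CoxeterMatrix (Fin 4) where
  M := !![1, 3, 2, 2;
          3, 1, 3, 3;
          2, 3, 1, 2;
          2, 3, 2, 1]
  isSymm := by decide
  diagonal := by decide
  off_diagonal := by decide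

/-- Row K1. -/
def SpTriv : Prop := (∀ M : CoxeterMatrix (Fin 0), Con M) ∧ ∀ M : CoxeterMatrix (Fin 1), Con M

/-- Row K2. -/
def SpRed : Prop := ∀ (n : ℕ) (M : CoxeterMatrix (Fin n)), ¬ Irr M → Con M

/-- Row K3. -/
def SpIso : Prop := ∀ (n : ℕ) (M M' : CoxeterMatrix (Fin n)), Iso M M' → Con M' → Con M

/-- Row K4. -/
def SpRep : Prop := ∀ (n : ℕ) (M : CoxeterMatrix (Fin n)),
  ∃ ρ : M.Group →* Module.End ℝ (Fin n → ℝ), ∀ (i : Fin n) (x : Fin n → ℝ),
    ρ (M.simple i) x = x - (2 * ∑ j, bl M i j * x j) • (Pi.single i 1 : Fin n → ℝ)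

/-- Row K5. -/
def SpPos : Prop := ∀ (n : ℕ) (M : CoxeterMatrix (Fin n)), Finite M.Group → Irr M → PD M

/-- Row K6. -/
def SpC2 : Prop := ∀ M : CoxeterMatrix (Fin 2), Irr M → PD M → 3 ≤ M 0 1

/-- Row K7. -/
def SpC3 : Prop := ∀ M : CoxeterMatrix (Fin 3), Irr M → PD M →
  Iso M MA3 ∨ Iso M MB3 ∨ Iso M CoxeterMatrix.H₃

/-- Row K8. -/
def SpC4 : Prop := ∀ M : CoxeterMatrix (Fin 4), Irr M → PD M →
  Iso M MA4 ∨ Iso M MB4 ∨ Iso M MD4' ∨ Iso M CoxeterMatrix.F₄ ∨ Iso M CoxeterMatrix.H₄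

/-- Row K9. -/
def SpDi : Prop := ∀ M : CoxeterMatrix (Fin 2), 3 ≤ M 0 1 → Con M

/-- The machine for the irreducible types of rank three and four. -/
def SpMach : Prop := Con MA3 ∧ Con MB3 ∧ Con CoxeterMatrix.H₃ ∧ Con MA4 ∧ Con MB4 ∧ Con MD4' ∧
  Con CoxeterMatrix.F₄ ∧ Con CoxeterMatrix.H₄

/-- Row K10. -/
def SpFin : Prop := SpTriv → SpRed → SpIso → SpPos → SpC2 → SpC3 → SpC4 → SpDi → SpMach →
  ∀ n : ℕ, n ≤ 4 → ∀ M : CoxeterMatrix (Fin n), Finite M.Group → Con M

end Pool.Agent.H54.RK
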