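import Pool.Agent.H54.RF.Asm
import Pool.Agent.H54.RK.Spec

/-!
# Project RK (MP_35eb49): dihedral types

Statements of the rows for the Artin groups with two generators.
-/

set_option autoImplicit false

namespace Pool.Agent.H54.RK

open Pool.Agent.H54.RF

/-- The germ `S` is the dual germ of the dihedral type `m`; `x i` are the atoms. -/
structure DG (m : ℕ) (S : Type) [NC S] (x : ZMod m → S) : Prop where
  ne : NC.bo S ≠ ⊤
  rk_top : NC.rk (⊤ : S) = 2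
  rk_x : ∀ i, NC.rk (x i) = 1
  all : ∀ s : S, s = NC.bo S ∨ s = ⊤ ∨ ∃ i, s = x i
  inj : Function.Injective x
  K_x : ∀ i, NC.K (x i) = x (i + 1)

/-- Row K9a. -/
def SpDiG : Prop := ∀ m : ℕ, 3 ≤ m → ∃ (S : Type) (_ : NC S) (x : ZMod m → S), DG m S x ∧ NC.Conn S

/-- Row K9b. -/
def SpDiR : Prop := ∀ (M : CoxeterMatrix (Fin 2)), 3 ≤ M 0 1 → ∀ (S : Type) [NC S]
  (x : ZMod (M 0 1) → S), DG (M 0 1) S x → Rz M ![x 0, x 1] [0, 1] (M 0 1)

/-- Row K9c. -/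
def SpDiC : Prop := ∀ (M : CoxeterMatrix (Fin 2)), 3 ≤ M 0 1 → ∀ (S : Type) [NC S]
  (x : ZMod (M 0 1) → S), NC.Conn S → DG (M 0 1) S x → Rz M ![x 0, x 1] [0, 1] (M 0 1) → Con M

/-- Row K9. -/
theorem sp_di_of (h1 : SpDiG) (h2 : SpDiR) (h3 : SpDiC) : SpDi := by
  intro M hM
  obtain ⟨S, _, x, hx, hC⟩ := h1 (M 0 1) hM
  exact h3 M hM S x hC hx (h2 M hM S x hx)

end Pool.Agent.H54.RK
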