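import Pool.Agent.H54.RK.Spec

/-!
# Project RK (MP_35eb49), row K1: rank zero and one
-/

set_option autoImplicit false

namespace Pool.Agent.H54.RK

open Pool.Agent.H54.RF

private theorem triv_con {n : ℕ} (M : CoxeterMatrix (Fin n)) (h : ∀ i j : Fin n, i = j) :
    Con M := by
  intro g _
  have hcl : Subgroup.closure (Set.range (PresentedGroup.of : Fin n → Art M)) = ⊤ :=
    PresentedGroup.closure_range_of _
  have hcomm : ∀ a b : Art M, a * b = b * a := by
    have h1 : Subgroup.closure (Set.range (PresentedGroup.of : Fin n → Art M)) ≤
        Subgroup.centralizer (Set.range (PresentedGroup.of : Fin n → Art M)) := by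
      rw [Subgroup.closure_le]
      rintro _ ⟨i, rfl⟩
      rw [SetLike.mem_coe, Subgroup.mem_centralizer_iff]
      rintro _ ⟨j, rfl⟩
      rw [h i j]
    intro a b
    have ha : a ∈ Subgroup.centralizer (Set.range (PresentedGroup.of : Fin n → Art M)) := by
      apply h1
      rw [hcl]
      exact Subgroup.mem_top _
    have h2 : Subgroup.closure (Set.range (PresentedGroup.of : Fin n → Art M)) ≤
        Subgroup.centralizer {a} := by
      rw [Subgroup.closure_le]
      intro x hx
      rw [SetLike.mem_coe, Subgroup.mem_centralizer_singleton_iff]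
      exact (Subgroup.mem_centralizer_iff.1 ha x hx)
    have hb : b ∈ Subgroup.centralizer {a} := by
      apply h2
      rw [hcl]
      exact Subgroup.mem_top _
    exact (Subgroup.mem_centralizer_singleton_iff.1 hb).symm
  have hcen : Subgroup.center (Art M) = ⊤ := by
    rw [eq_top_iff]
    intro a _
    rw [Subgroup.mem_center_iff]
    intro b
    exact hcomm b a
  rw [hcen, sup_top_eq, Subgroup.relIndex_top_left]
  exact one_ne_zero

/-- **Row K1.** Rank zero and one. -/
theorem sp_triv : SpTriv :=
  ⟨fun M => triv_con M fun i => i.elim0, fun M => triv_con M fun i j => Subsingleton.elim i j⟩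

end Pool.Agent.H54.RK
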